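import Pool.Agent.U36.DN.Kummer

/-!
The proportion of the elements which fix the `ℓ`-th roots of `c ℓ` if they fix the `ℓ`-th roots of unity,
for all primes `ℓ ∈ A`, is at most `[K:ℚ] ∏ (1 - 1/ℓ)`.
-/

set_option autoImplicit false
set_option linter.unusedSectionVars false

open NumberField Polynomial Pool.Agent.W401.Cheb

namespace Pool.Agent.U36.DN

variable {K : Type} [Field K] [NumberField K]

/-- all Kummer characters occur -/
lemma all_chars {A : Finset ℕ} (hA : ∀ ℓ ∈ A, ℓ.Prime) (hd : ∀ ℓ ∈ A, Module.finrank ℚ K + 1 < ℓ)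
    {c : ℕ → K} (hc : ∀ ℓ ∈ A, ∀ x : K, x ^ ℓ ≠ c ℓ) {n : ℕ} (hn : 0 < n) (hAn : ∀ ℓ ∈ A, ℓ ∣ n)
    {Z : AlgebraicClosure K} (hZ : IsPrimitiveRoot Z n) {ρ : ℕ → AlgebraicClosure K}
    (hρ : ∀ ℓ ∈ A, ρ ℓ ^ ℓ = algebraMap K (AlgebraicClosure K) (c ℓ)) (k : ℕ → ℕ) :
    ∀ B : Finset ℕ, B ⊆ A → ∃ σ : GK K, σ Z = Z ∧ ∀ ℓ ∈ B, σ (ρ ℓ) = Z ^ ((n / ℓ) * k ℓ) * ρ ℓ := by
  classical
  intro B
  induction B using Finset.induction_on with
  | empty => exact fun _ => ⟨1, rfl, fun ℓ h => absurd h (Finset.notMem_empty ℓ)⟩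
  | insert q B hqB ih =>
    intro hsub
    obtain ⟨τ, hτZ, hτ⟩ := ih fun x hx => hsub (Finset.mem_insert_of_mem hx)
    have hqA : q ∈ A := hsub (Finset.mem_insert_self q B)
    have hq := hA q hqA
    obtain ⟨σ, hσZ, hσ⟩ := exists_move hq (hAn q hqA) hn hZ (hd q hqA) (hc q hqA) (hρ q hqA)
    -- how elements fixing Z act
    have hroot : ∀ ℓ ∈ A, ρ ℓ ≠ 0 := by
      intro ℓ hℓ h0
      have h1 := hρ ℓ hℓ
      rw [h0, zero_pow (hA ℓ hℓ).ne_zero] at h1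
      apply hc ℓ hℓ 0
      rw [zero_pow (hA ℓ hℓ).ne_zero]
      exact ((_root_.map_eq_zero _).1 h1.symm).symm
    have hact : ∀ ℓ ∈ A, ∀ g : GK K, g Z = Z → ∃ i : ℕ, g (ρ ℓ) = Z ^ ((n / ℓ) * i) * ρ ℓ := by
      intro ℓ hℓ g hg
      have hp := (hA ℓ hℓ)
      have hzp : IsPrimitiveRoot (Z ^ (n / ℓ)) ℓ := hZ.pow hn (Nat.div_mul_cancel (hAn ℓ hℓ)).symm
      have : NeZero ℓ := ⟨hp.ne_zero⟩
      obtain ⟨i, -, hi⟩ := hzp.eq_pow_of_pow_eq_one (ξ := g (ρ ℓ) / ρ ℓ) (by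
        rw [div_pow, ← map_pow, hρ ℓ hℓ, AlgEquiv.commutes, div_self]
        rw [← hρ ℓ hℓ]
        exact pow_ne_zero _ (hroot ℓ hℓ))
      refine ⟨i, ?_⟩
      rw [pow_mul, hi, div_mul_cancel₀ _ (hroot ℓ hℓ)]
    have hpow : ∀ g : GK K, g Z = Z → ∀ m : ℕ, (g ^ m) Z = Z := by
      intro g hg m
      induction m with
      | zero => rfl
      | succ m ih => rw [pow_succ, AlgEquiv.mul_apply, hg, ih]
    have hpowρ : ∀ ℓ ∈ A, ∀ g : GK K, g Z = Z → ∀ i : ℕ, g (ρ ℓ) = Z ^ ((n / ℓ) * i) * ρ ℓ →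
        ∀ m : ℕ, (g ^ m) (ρ ℓ) = Z ^ ((n / ℓ) * (i * m)) * ρ ℓ := by
      intro ℓ hℓ g hg i hi m
      induction m with
      | zero => rw [pow_zero, mul_zero, mul_zero, pow_zero, one_mul]; rfl
      | succ m ih =>
        rw [pow_succ', AlgEquiv.mul_apply, ih, map_mul, map_pow, hg, hi, ← mul_assoc, ← pow_add]
        congr 2
        ring
    obtain ⟨a, ha⟩ := hact q hqA σ hσZ
    obtain ⟨b, hb⟩ := hact q hqA τ hτZ
    have hqp : IsPrimitiveRoot (Z ^ (n / q)) q := hZ.pow hn (Nat.div_mul_cancel (hAn q hqA)).symm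
    -- q does not divide a
    have haq : ¬ q ∣ a := by
      rintro ⟨m, rfl⟩
      apply hσ
      rw [ha, pow_mul, pow_mul, hqp.pow_eq_one, one_pow, one_mul]
    set N := ∏ ℓ ∈ B, ℓ with hN
    have hNq : ¬ q ∣ N := by
      rw [hN, hq.prime.dvd_finsetProd_iff]
      rintro ⟨ℓ, hℓ, hdv⟩
      have := (Nat.prime_dvd_prime_iff_eq hq (hA ℓ (hsub (Finset.mem_insert_of_mem hℓ)))).1 hdv
      exact hqB (this ▸ hℓ)
    -- solve b + a N j = k q mod q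
    obtain ⟨j, hj⟩ : ∃ j : ℕ, b + a * (N * j) ≡ k q [MOD q] := by
      have hcop : Nat.Coprime (a * N) q := by
        rw [Nat.coprime_comm, hq.coprime_iff_not_dvd, hq.dvd_mul]
        tauto
      have hFact : Fact q.Prime := ⟨hq⟩
      have hu : ((a * N : ℕ) : ZMod q) ≠ 0 := by
        intro h0
        rw [ZMod.natCast_eq_zero_iff] at h0
        exact (hq.coprime_iff_not_dvd.1 hcop.symm) h0
      refine ⟨((((k q : ZMod q) - b) / ((a * N : ℕ) : ZMod q))).val, ?_⟩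
      rw [← ZMod.natCast_eq_natCast_iff]
      push_cast
      rw [ZMod.natCast_zmod_val]
      push_cast at hu
      rw [← mul_assoc, mul_div_cancel₀ _ hu]
      ring
    refine ⟨τ * σ ^ (N * j), ?_, ?_⟩
    · rw [AlgEquiv.mul_apply, hpow σ hσZ, hτZ]
    · intro ℓ hℓ
      rcases Finset.mem_insert.1 hℓ with rfl | hℓB
      · rw [AlgEquiv.mul_apply, hpowρ ℓ hqA σ hσZ a ha, map_mul, map_pow, hτZ, hb, ← mul_assoc, ← pow_add,
          ← mul_add, pow_mul, pow_mul]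
        congr 1
        rw [pow_eq_pow_mod _ hqp.pow_eq_one, pow_eq_pow_mod (k ℓ) hqp.pow_eq_one, add_comm, hj]
      · have hℓA := hsub (Finset.mem_insert_of_mem hℓB)
        obtain ⟨i, hi⟩ := hact ℓ hℓA σ hσZ
        obtain ⟨m, hm⟩ : ℓ ∣ N := Finset.dvd_prod_of_mem _ hℓB
        rw [AlgEquiv.mul_apply, hpowρ ℓ hℓA σ hσZ i hi, map_mul, map_pow, hτZ, hτ ℓ hℓB]
        have hzp : IsPrimitiveRoot (Z ^ (n / ℓ)) ℓ :=
          hZ.pow hn (Nat.div_mul_cancel (hAn ℓ hℓA)).symm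
        have e : Z ^ ((n / ℓ) * (i * (N * j))) = 1 := by
          rw [pow_mul, hm, show i * (ℓ * m * j) = ℓ * (i * m * j) by ring, pow_mul, hzp.pow_eq_one,
            one_pow]
        rw [e, one_mul]

/-- the lower bound for the degree -/
theorem lower {A : Finset ℕ} (hA : ∀ ℓ ∈ A, ℓ.Prime) (hd : ∀ ℓ ∈ A, Module.finrank ℚ K + 1 < ℓ)
    {c : ℕ → K} (hc : ∀ ℓ ∈ A, ∀ x : K, x ^ ℓ ≠ c ℓ) :
    (∏ ℓ ∈ A, (ℓ - 1)) * ∏ ℓ ∈ A, ℓ ≤ Module.finrank ℚ K * Nat.card (GK K ⧸ UU A c) := by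
  classical
  have hfin : Finite (GK K ⧸ UU A c) :=
    Subgroup.quotient_finite_of_isOpen _ (isOpen_UU A (fun ℓ hℓ => (hA ℓ hℓ).pos) c)
  set n := ∏ ℓ ∈ A, ℓ with hn'
  have hn : 0 < n := Finset.prod_pos fun ℓ hℓ => (hA ℓ hℓ).pos
  have hn0 : NeZero n := ⟨hn.ne'⟩
  have hn1 : NeZero (n : AlgebraicClosure K) := ⟨Nat.cast_ne_zero.2 hn.ne'⟩
  obtain ⟨Z, hZ⟩ := HasEnoughRootsOfUnity.exists_primitiveRoot (AlgebraicClosure K) n
  have hAn : ∀ ℓ ∈ A, ℓ ∣ n := fun ℓ hℓ => Finset.dvd_prod_of_mem _ hℓ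
  have hroots : ∀ ℓ : ℕ, ∃ r : AlgebraicClosure K, 0 < ℓ → r ^ ℓ = algebraMap K (AlgebraicClosure K) (c ℓ) := by
    intro ℓ
    by_cases h : 0 < ℓ
    · obtain ⟨r, hr⟩ := IsAlgClosed.exists_pow_nat_eq (algebraMap K (AlgebraicClosure K) (c ℓ)) h
      exact ⟨r, fun _ => hr⟩
    · exact ⟨0, fun h' => absurd h' h⟩
  choose ρ hρ' using hroots
  have hρ : ∀ ℓ ∈ A, ρ ℓ ^ ℓ = algebraMap K (AlgebraicClosure K) (c ℓ) := fun ℓ hℓ =>
    hρ' ℓ (hA ℓ hℓ).pos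
  have hroot : ∀ ℓ ∈ A, ρ ℓ ≠ 0 := by
    intro ℓ hℓ h0
    have h1 := hρ ℓ hℓ
    rw [h0, zero_pow (hA ℓ hℓ).ne_zero] at h1
    apply hc ℓ hℓ 0
    rw [zero_pow (hA ℓ hℓ).ne_zero]
    exact ((_root_.map_eq_zero _).1 h1.symm).symm
  have hzp : ∀ ℓ ∈ A, IsPrimitiveRoot (Z ^ (n / ℓ)) ℓ := fun ℓ hℓ =>
    hZ.pow hn (Nat.div_mul_cancel (hAn ℓ hℓ)).symm
  have htot : n.totient = ∏ ℓ ∈ A, (ℓ - 1) := by
    rw [hn']
    have : ∀ B : Finset ℕ, B ⊆ A → (∏ ℓ ∈ B, ℓ).totient = ∏ ℓ ∈ B, (ℓ - 1) := by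
      intro B
      induction B using Finset.induction_on with
      | empty => intro _; rw [Finset.prod_empty, Finset.prod_empty, Nat.totient_one]
      | insert q B hqB ih =>
        intro hsub
        have hq := hA q (hsub (Finset.mem_insert_self q B))
        rw [Finset.prod_insert hqB, Finset.prod_insert hqB, Nat.totient_mul, Nat.totient_prime hq,
          ih fun x hx => hsub (Finset.mem_insert_of_mem hx)]
        rw [Nat.coprime_prod_right_iff]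
        intro ℓ hℓ
        rw [Nat.coprime_primes hq (hA ℓ (hsub (Finset.mem_insert_of_mem hℓ)))]
        rintro rfl
        exact hqB hℓ
    exact this A (Finset.Subset.refl A)
  -- the conjugates of Z
  have hint : IsIntegral K Z := Algebra.IsIntegral.isIntegral Z
  have hcard : Fintype.card ((minpoly K Z).rootSet (AlgebraicClosure K)) = (minpoly K Z).natDegree :=
    card_rootSet_eq_natDegree (minpoly.irreducible hint).separable (IsAlgClosed.splits _)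
  have hσ : ∀ z : (minpoly K Z).rootSet (AlgebraicClosure K), ∃ σ : GK K, σ Z = z.1 := by
    rintro ⟨z, hz⟩
    have h1 := (mem_rootSet.1 hz).2
    obtain ⟨σ, hσ⟩ := minpoly.exists_algEquiv_of_root' (Algebra.IsAlgebraic.isAlgebraic Z) h1
    exact ⟨σ, hσ⟩
  choose σ hσ using hσ
  have hτ : ∀ k : ((ℓ : A) → Fin ℓ.1), ∃ τ : GK K, τ Z = Z ∧
      ∀ ℓ : A, τ (ρ ℓ) = Z ^ ((n / ℓ.1) * (k ℓ).1) * ρ ℓ := by
    intro k
    obtain ⟨τ, h1, h2⟩ := all_chars hA hd hc hn hAn hZ hρ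
      (fun ℓ => if h : ℓ ∈ A then (k ⟨ℓ, h⟩).1 else 0) A (Finset.Subset.refl A)
    refine ⟨τ, h1, fun ℓ => ?_⟩
    have := h2 ℓ.1 ℓ.2
    rw [dif_pos ℓ.2] at this
    exact this
  choose τ hτZ hτ using hτ
  have hinj : Function.Injective (fun x : ((minpoly K Z).rootSet (AlgebraicClosure K)) ×
      ((ℓ : A) → Fin ℓ.1) => ((σ x.1 * τ x.2 : GK K) : GK K ⧸ UU A c)) := by
    rintro ⟨z, k⟩ ⟨z', k'⟩ h
    have h1 : (σ z * τ k)⁻¹ * (σ z' * τ k') ∈ UU A c := QuotientGroup.eq.1 h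
    have h2 : ((σ z * τ k)⁻¹ * (σ z' * τ k')) Z = Z := by
      -- Z is a product of ℓ-th roots of unity
      have h3 : ∀ B : Finset ℕ, B ⊆ A → ∀ w : AlgebraicClosure K, w ^ (∏ ℓ ∈ B, ℓ) = 1 →
          ((σ z * τ k)⁻¹ * (σ z' * τ k')) w = w := by
        intro B
        induction B using Finset.induction_on with
        | empty =>
          intro _ w hw
          rw [Finset.prod_empty, pow_one] at hw
          rw [hw, map_one]
        | insert q B hqB ih =>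
          intro hsub w hw
          have hqA := hsub (Finset.mem_insert_self q B)
          have hcop : Nat.Coprime q (∏ ℓ ∈ B, ℓ) := by
            rw [Nat.coprime_prod_right_iff]
            intro ℓ hℓ
            rw [Nat.coprime_primes (hA q hqA) (hA ℓ (hsub (Finset.mem_insert_of_mem hℓ)))]
            rintro rfl
            exact hqB hℓ
          rw [Finset.prod_insert hqB] at hw
          have e1 : ((σ z * τ k)⁻¹ * (σ z' * τ k')) (w ^ q) = w ^ q := by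
            apply ih fun x hx => hsub (Finset.mem_insert_of_mem hx)
            rw [← pow_mul]
            exact hw
          have e2 : ((σ z * τ k)⁻¹ * (σ z' * τ k')) (w ^ (∏ ℓ ∈ B, ℓ)) = w ^ (∏ ℓ ∈ B, ℓ) := by
            apply (h1 q hqA).1
            rw [← pow_mul, mul_comm, hw, map_one]
          have hw0 : w ≠ 0 := by
            intro h0
            rw [h0, zero_pow] at hw
            · exact zero_ne_one hw
            · exact (Nat.mul_pos (hA q hqA).pos (Finset.prod_pos fun ℓ hℓ =>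
                (hA ℓ (hsub (Finset.mem_insert_of_mem hℓ))).pos)).ne'
          have hb := Nat.gcd_eq_gcd_ab q (∏ ℓ ∈ B, ℓ)
          rw [hcop.gcd_eq_one] at hb
          have e3 : w = (w ^ q) ^ (Nat.gcdA q (∏ ℓ ∈ B, ℓ)) * (w ^ (∏ ℓ ∈ B, ℓ)) ^ (Nat.gcdB q (∏ ℓ ∈ B, ℓ)) := by
            rw [← zpow_natCast w q, ← zpow_natCast w (∏ ℓ ∈ B, ℓ), ← zpow_mul, ← zpow_mul, ← zpow_add₀ hw0,
              ← hb, Nat.cast_one, zpow_one]
          conv_lhs => rw [e3]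
          rw [map_mul, map_zpow₀, map_zpow₀, e1, e2, ← e3]
      exact h3 A (Finset.Subset.refl A) Z hZ.pow_eq_one
    have h3 : z = z' := by
      apply Subtype.ext
      have h4 := congrArg (σ z * τ k) h2
      rw [← AlgEquiv.mul_apply, mul_inv_cancel_left, AlgEquiv.mul_apply, AlgEquiv.mul_apply, hτZ, hτZ,
        hσ, hσ] at h4
      exact h4.symm
    subst h3
    refine Prod.ext rfl ?_
    funext ℓ
    have h4 := (h1 ℓ.1 ℓ.2).2 (ρ ℓ) (hρ ℓ.1 ℓ.2)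
    have h5 := congrArg (σ z * τ k) h4
    rw [← AlgEquiv.mul_apply, mul_inv_cancel_left, AlgEquiv.mul_apply, AlgEquiv.mul_apply, hτ, hτ] at h5
    have h6 := (σ z).injective h5
    have h7 := mul_right_cancel₀ (hroot ℓ.1 ℓ.2) h6
    rw [pow_mul, pow_mul] at h7
    have h8 := (hzp ℓ.1 ℓ.2).pow_inj (k' ℓ).2 (k ℓ).2 h7
    exact Fin.ext h8.symm
  have hle := Nat.card_le_card_of_injective _ hinj
  rw [Nat.card_prod, Nat.card_eq_fintype_card, hcard, Nat.card_eq_fintype_card, Fintype.card_pi] at hle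
  have h9 : ∏ ℓ : A, Fintype.card (Fin ℓ.1) = ∏ ℓ ∈ A, ℓ := by
    simp only [Fintype.card_fin]
    exact Finset.prod_coe_sort A fun ℓ => ℓ
  rw [h9] at hle
  have h10 := cyc_deg n hn Z hZ
  rw [htot] at h10
  calc (∏ ℓ ∈ A, (ℓ - 1)) * n ≤ (Module.finrank ℚ K * (minpoly K Z).natDegree) * n :=
        Nat.mul_le_mul_right _ h10
    _ = Module.finrank ℚ K * ((minpoly K Z).natDegree * n) := by ring
    _ ≤ _ := Nat.mul_le_mul_left _ hle

/-- the upper bound for the number of classes -/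
theorem upper {A : Finset ℕ} (hA : ∀ ℓ ∈ A, ℓ.Prime) {c : ℕ → K} (hc0 : ∀ ℓ ∈ A, c ℓ ≠ 0) :
    ((QuotientGroup.mk : GK K → GK K ⧸ UU A c) '' CC A c).ncard ≤ ∏ ℓ ∈ A, (ℓ - 1) ^ 2 := by
  classical
  have hfin : Finite (GK K ⧸ UU A c) :=
    Subgroup.quotient_finite_of_isOpen _ (isOpen_UU A (fun ℓ hℓ => (hA ℓ hℓ).pos) c)
  have hz : ∀ ℓ : A, ∃ z : AlgebraicClosure K, IsPrimitiveRoot z ℓ.1 := by
    intro ℓ
    have hn0 : NeZero ℓ.1 := ⟨(hA _ ℓ.2).ne_zero⟩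
    have hn1 : NeZero ((ℓ.1 : ℕ) : AlgebraicClosure K) := ⟨Nat.cast_ne_zero.2 (hA _ ℓ.2).ne_zero⟩
    exact HasEnoughRootsOfUnity.exists_primitiveRoot (AlgebraicClosure K) ℓ.1
  choose ζ hζ using hz
  have hr : ∀ ℓ : A, ∃ r : AlgebraicClosure K, r ^ ℓ.1 = algebraMap K (AlgebraicClosure K) (c ℓ) :=
    fun ℓ => IsAlgClosed.exists_pow_nat_eq _ (hA _ ℓ.2).pos
  choose ρ hρ using hr
  set X : (ℓ : A) → Finset (AlgebraicClosure K × AlgebraicClosure K) := fun ℓ =>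
    insert (ζ ℓ, ρ ℓ) (((primitiveRoots ℓ.1 (AlgebraicClosure K)).erase (ζ ℓ)) ×ˢ
      (nthRoots ℓ.1 (algebraMap K (AlgebraicClosure K) (c ℓ))).toFinset) with hX
  have hXc : ∀ ℓ : A, (X ℓ).card ≤ (ℓ.1 - 1) ^ 2 := by
    intro ℓ
    have hp := hA _ ℓ.2
    refine (Finset.card_insert_le _ _).trans ?_
    rw [Finset.card_product, Finset.card_erase_of_mem ((mem_primitiveRoots hp.pos).2 (hζ ℓ)),
      (hζ ℓ).card_primitiveRoots, Nat.totient_prime hp]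
    have h1 : ((nthRoots ℓ.1 (algebraMap K (AlgebraicClosure K) (c ℓ))).toFinset).card ≤ ℓ.1 :=
      (Multiset.toFinset_card_le _).trans (card_nthRoots _ _)
    obtain ⟨m, hm⟩ : ∃ m, ℓ.1 = m + 2 := ⟨ℓ.1 - 2, by have := hp.two_le; omega⟩
    rw [hm] at h1 ⊢
    calc (m + 2 - 1 - 1) * _ + 1 ≤ m * (m + 2) + 1 := by
          have : m + 2 - 1 - 1 = m := by omega
          rw [this]
          exact Nat.add_le_add_right (Nat.mul_le_mul_left _ h1) 1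
      _ = (m + 2 - 1) ^ 2 := by
          have : m + 2 - 1 = m + 1 := by omega
          rw [this]
          ring
  set f : GK K ⧸ UU A c → ((ℓ : A) → AlgebraicClosure K × AlgebraicClosure K) := fun q ℓ =>
    (q.out (ζ ℓ), q.out (ρ ℓ)) with hf
  have hmaps : ∀ q ∈ (QuotientGroup.mk : GK K → GK K ⧸ UU A c) '' CC A c,
      f q ∈ (↑(Fintype.piFinset X) : Set ((ℓ : A) → AlgebraicClosure K × AlgebraicClosure K)) := by
    rintro q ⟨σ, hσ, rfl⟩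
    rw [Finset.mem_coe, Fintype.mem_piFinset]
    intro ℓ
    have hp := hA _ ℓ.2
    obtain ⟨u, hu⟩ := QuotientGroup.mk_out_eq_mul (UU A c) σ
    set g := ((σ : GK K ⧸ UU A c)).out with hg
    have hgC : g ∈ CC A c := by
      rw [hu]
      exact CC_mul A c σ hσ u.1 u.2
    change (g (ζ ℓ), g (ρ ℓ)) ∈ X ℓ
    rw [hX, Finset.mem_insert, Finset.mem_product, Finset.mem_erase, mem_primitiveRoots hp.pos,
      Multiset.mem_toFinset, mem_nthRoots hp.pos]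
    by_cases h : g (ζ ℓ) = ζ ℓ
    · left
      have h1 := hgC ℓ.1 ℓ.2 (fix_of_prim hp.pos (hζ ℓ) h)
      rw [h, h1 (ρ ℓ) (hρ ℓ)]
    · right
      refine ⟨⟨h, (hζ ℓ).map_of_injective g.injective⟩, ?_⟩
      change g (ρ ℓ) ^ ℓ.1 = _
      rw [← map_pow, hρ ℓ, AlgEquiv.commutes]
  have hinj : Set.InjOn f ((QuotientGroup.mk : GK K → GK K ⧸ UU A c) '' CC A c) := by
    intro q _ q' _ h
    rw [← QuotientGroup.out_eq' q, ← QuotientGroup.out_eq' q', QuotientGroup.eq]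
    intro ℓ hℓ
    have hp := hA _ hℓ
    have h1 := congrFun h ⟨ℓ, hℓ⟩
    have h2 : q.out (ζ ⟨ℓ, hℓ⟩) = q'.out (ζ ⟨ℓ, hℓ⟩) := congrArg Prod.fst h1
    have h3 : q.out (ρ ⟨ℓ, hℓ⟩) = q'.out (ρ ⟨ℓ, hℓ⟩) := congrArg Prod.snd h1
    have h4 : ((q.out)⁻¹ * q'.out) (ζ ⟨ℓ, hℓ⟩) = ζ ⟨ℓ, hℓ⟩ := by
      rw [AlgEquiv.mul_apply, ← h2, ← AlgEquiv.mul_apply, inv_mul_cancel]
      rfl
    have h5 : ((q.out)⁻¹ * q'.out) (ρ ⟨ℓ, hℓ⟩) = ρ ⟨ℓ, hℓ⟩ := by
      rw [AlgEquiv.mul_apply, ← h3, ← AlgEquiv.mul_apply, inv_mul_cancel]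
      rfl
    have h6 := fix_of_prim hp.pos (hζ ⟨ℓ, hℓ⟩) h4
    exact ⟨h6, fix_of_root hp.pos (hρ ⟨ℓ, hℓ⟩) (hc0 ℓ hℓ) h6 h5⟩
  have h1 := Set.ncard_le_ncard_of_injOn f hmaps hinj (Finset.finite_toSet _)
  rw [Set.ncard_coe_finset, Fintype.card_piFinset] at h1
  refine h1.trans ((Finset.prod_le_prod' fun ℓ _ => hXc ℓ).trans ?_)
  rw [Finset.prod_coe_sort A fun ℓ => (ℓ - 1) ^ 2]

end Pool.Agent.U36.DN
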