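import Pool.Agent.U36.DN.Dens

/-!
Sets of places of natural density zero.
-/

set_option autoImplicit false
set_option linter.unusedSectionVars false

open NumberField Polynomial Pool.Agent.W401.Cheb IsDedekindDomain Filter Topology

namespace Pool.Agent.U36.DN

variable {K : Type} [Field K] [NumberField K]

/-- the set of finite places `S` has natural density zero -/
def DZ (S : Set (HeightOneSpectrum (𝓞 K))) : Prop :=
  Tendsto (dens fun v => v ∈ S) atTop (𝓝 0)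

lemma finite_norm_le (n : ℕ) :
    {v : HeightOneSpectrum (𝓞 K) | Ideal.absNorm v.asIdeal ≤ n}.Finite := by
  have h1 := Ideal.finite_setOfPred_absNorm_le (S := 𝓞 K) n
  exact Set.Finite.of_finite_image (f := fun v : HeightOneSpectrum (𝓞 K) => v.asIdeal)
    (h1.subset (by rintro _ ⟨v, hv, rfl⟩; exact hv))
    (fun v _ w _ hvw => HeightOneSpectrum.ext hvw)

lemma dens_nonneg (P : HeightOneSpectrum (𝓞 K) → Prop) (n : ℕ) : 0 ≤ dens P n := by
  unfold dens
  positivity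

lemma dens_eq (S : Set (HeightOneSpectrum (𝓞 K))) (n : ℕ) : dens (fun v => v ∈ S) n =
    ({v : HeightOneSpectrum (𝓞 K) | Ideal.absNorm v.asIdeal ≤ n ∧ v ∈ S}.ncard : ℝ) /
      (Nat.primeCounting n : ℝ) := rfl

/-- comparison of densities -/
lemma DZ.of_le {L : Type} [Field L] [NumberField L] {S : Set (HeightOneSpectrum (𝓞 K))}
    {W : Set (HeightOneSpectrum (𝓞 L))} (hW : DZ W) {E : Set (HeightOneSpectrum (𝓞 K))}
    (hE : E.Finite) (f : HeightOneSpectrum (𝓞 K) → HeightOneSpectrum (𝓞 L))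
    (hf : ∀ v ∈ S, v ∉ E → f v ∈ W ∧ Ideal.absNorm (f v).asIdeal ≤ Ideal.absNorm v.asIdeal)
    (hinj : ∀ v ∈ S, ∀ w ∈ S, v ∉ E → w ∉ E → f v = f w → v = w) : DZ S := by
  have hlim : Tendsto (fun n : ℕ => dens (fun w => w ∈ W) n +
      (E.ncard : ℝ) / (Nat.primeCounting n : ℝ)) atTop (𝓝 (0 + 0)) := by
    refine Tendsto.add hW ?_
    apply Tendsto.const_div_atTop
    exact tendsto_natCast_atTop_atTop.comp Nat.tendsto_primeCounting
  rw [add_zero] at hlim
  refine tendsto_of_tendsto_of_tendsto_of_le_of_le tendsto_const_nhds hlim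
    (fun n => dens_nonneg _ n) fun n => ?_
  simp only
  rw [dens_eq, dens_eq, ← add_div]
  apply div_le_div_of_nonneg_right _ (Nat.cast_nonneg _)
  have h1 : {v : HeightOneSpectrum (𝓞 K) | Ideal.absNorm v.asIdeal ≤ n ∧ v ∈ S} ⊆
      {v : HeightOneSpectrum (𝓞 K) | Ideal.absNorm v.asIdeal ≤ n ∧ v ∈ S ∧ v ∉ E} ∪ E := by
    rintro v ⟨hv1, hv2⟩
    by_cases hvE : v ∈ E
    · exact Or.inr hvE
    · exact Or.inl ⟨hv1, hv2, hvE⟩
  have h2 : {v : HeightOneSpectrum (𝓞 K) | Ideal.absNorm v.asIdeal ≤ n ∧ v ∈ S ∧ v ∉ E}.ncard ≤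
      {w : HeightOneSpectrum (𝓞 L) | Ideal.absNorm w.asIdeal ≤ n ∧ w ∈ W}.ncard := by
    refine Set.ncard_le_ncard_of_injOn f ?_ ?_ ((finite_norm_le n).subset fun v hv => hv.1)
    · rintro v ⟨hv1, hv2, hv3⟩
      exact ⟨(hf v hv2 hv3).2.trans hv1, (hf v hv2 hv3).1⟩
    · rintro v ⟨_, hv2, hv3⟩ w ⟨_, hw2, hw3⟩ h
      exact hinj v hv2 w hw2 hv3 hw3 h
  have h3 := Set.ncard_le_ncard h1 (((finite_norm_le n).subset fun v hv => hv.1).union hE)
  have h4 := h3.trans (Set.ncard_union_le _ _)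
  exact_mod_cast h4.trans (Nat.add_le_add_right h2 _)

lemma DZ.mono {S W : Set (HeightOneSpectrum (𝓞 K))} (hW : DZ W) (h : S ⊆ W) : DZ S :=
  DZ.of_le hW Set.finite_empty id (fun v hv _ => ⟨h hv, le_rfl⟩) fun _ _ _ _ _ _ h => h

lemma DZ.empty : DZ (∅ : Set (HeightOneSpectrum (𝓞 K))) := by
  have h : (fun n : ℕ => dens (fun v : HeightOneSpectrum (𝓞 K) => v ∈
      (∅ : Set (HeightOneSpectrum (𝓞 K)))) n) = fun _ => (0 : ℝ) := by
    funext n
    rw [dens_eq]
    have : {v : HeightOneSpectrum (𝓞 K) | Ideal.absNorm v.asIdeal ≤ n ∧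
        v ∈ (∅ : Set (HeightOneSpectrum (𝓞 K)))} = ∅ := by
      ext v
      simp
    rw [this, Set.ncard_empty, Nat.cast_zero, zero_div]
  unfold DZ
  rw [show dens (fun v : HeightOneSpectrum (𝓞 K) => v ∈
      (∅ : Set (HeightOneSpectrum (𝓞 K)))) = fun _ => (0 : ℝ) from h]
  exact tendsto_const_nhds

lemma DZ.finite {S : Set (HeightOneSpectrum (𝓞 K))} (h : S.Finite) : DZ S :=
  DZ.of_le (W := (∅ : Set (HeightOneSpectrum (𝓞 K)))) DZ.empty h id
    (fun v hv hv' => absurd hv hv') fun v hv _ _ hv' => absurd hv hv'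

lemma DZ.union {S W : Set (HeightOneSpectrum (𝓞 K))} (hS : DZ S) (hW : DZ W) : DZ (S ∪ W) := by
  have hlim : Tendsto (fun n : ℕ => dens (fun v => v ∈ S) n + dens (fun v => v ∈ W) n) atTop
      (𝓝 (0 + 0)) := Tendsto.add hS hW
  rw [add_zero] at hlim
  refine tendsto_of_tendsto_of_tendsto_of_le_of_le tendsto_const_nhds hlim
    (fun n => dens_nonneg _ n) fun n => ?_
  simp only
  rw [dens_eq, dens_eq, dens_eq, ← add_div]
  apply div_le_div_of_nonneg_right _ (Nat.cast_nonneg _)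
  have h1 : {v : HeightOneSpectrum (𝓞 K) | Ideal.absNorm v.asIdeal ≤ n ∧ v ∈ S ∪ W} ⊆
      {v : HeightOneSpectrum (𝓞 K) | Ideal.absNorm v.asIdeal ≤ n ∧ v ∈ S} ∪
      {v : HeightOneSpectrum (𝓞 K) | Ideal.absNorm v.asIdeal ≤ n ∧ v ∈ W} := by
    rintro v ⟨hv1, hv2 | hv2⟩
    · exact Or.inl ⟨hv1, hv2⟩
    · exact Or.inr ⟨hv1, hv2⟩
  have h3 := Set.ncard_le_ncard h1 (((finite_norm_le n).subset fun v hv => hv.1).union
    ((finite_norm_le n).subset fun v hv => hv.1))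
  exact_mod_cast h3.trans (Set.ncard_union_le _ _)

lemma DZ.biUnion {I : Type*} (A : Finset I) (S : I → Set (HeightOneSpectrum (𝓞 K)))
    (h : ∀ i ∈ A, DZ (S i)) : DZ (⋃ i ∈ A, S i) := by
  classical
  induction A using Finset.induction_on with
  | empty => simpa using DZ.empty
  | insert a A _ ih =>
    rw [Finset.set_biUnion_insert]
    exact (h a (Finset.mem_insert_self a A)).union
      (ih fun i hi => h i (Finset.mem_insert_of_mem hi))

end Pool.Agent.U36.DN
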