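import Pool.Agent.U36.DN.Count
import Pool.Agent.W528.Ord.Dens
import Pool.Agent.W401.Cheb.Frob

/-!
Sets of places of density zero: if for every large prime `ℓ` some `c`, not an `ℓ`-th power, is an `ℓ`-th
power modulo almost all places of `S`, then `S` has natural density zero.
-/

set_option autoImplicit false
set_option linter.unusedSectionVars false

open NumberField Polynomial Pool.Agent.W401.Cheb IsDedekindDomain Filter Topology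

namespace Pool.Agent.U36.DN

/-- a set of primes with divergent sum of the reciprocals -/
def Fat (D : Set ℕ) : Prop :=
  (∀ ℓ ∈ D, ℓ.Prime) ∧ ¬ Summable (D.indicator fun n : ℕ => (1 : ℝ) / n)

lemma fat_primes : Fat {ℓ : ℕ | ℓ.Prime} := ⟨fun _ h => h, not_summable_one_div_on_primes⟩

lemma Fat.infinite {D : Set ℕ} (h : Fat D) : D.Infinite := by
  intro hD
  apply h.2
  refine summable_of_ne_finset_zero (s := hD.toFinset) fun n hn => ?_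
  rw [Set.indicator_of_notMem]
  exact fun h' => hn (hD.mem_toFinset.2 h')

/-- one of the two parts of a large set of primes is large -/
lemma Fat.split {D : Set ℕ} (h : Fat D) (E : Set ℕ) : Fat (D ∩ E) ∨ Fat (D \ E) := by
  by_contra hcon
  rw [not_or] at hcon
  have h1 : Summable ((D ∩ E).indicator fun n : ℕ => (1 : ℝ) / n) := by
    by_contra h1
    exact hcon.1 ⟨fun ℓ hℓ => h.1 ℓ hℓ.1, h1⟩
  have h2 : Summable ((D \ E).indicator fun n : ℕ => (1 : ℝ) / n) := by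
    by_contra h2
    exact hcon.2 ⟨fun ℓ hℓ => h.1 ℓ hℓ.1, h2⟩
  apply h.2
  refine (h1.add h2).congr fun n => ?_
  by_cases hD : n ∈ D <;> by_cases hE : n ∈ E <;> simp [hD, hE]

lemma exists_primes {D : Set ℕ} (hD : Fat D) (B : ℕ) (δ : ℝ) (hδ : 0 < δ) :
    ∃ A : Finset ℕ, (∀ ℓ ∈ A, ℓ ∈ D ∧ B < ℓ) ∧ ∏ ℓ ∈ A, (((ℓ : ℝ) - 1) / ℓ) < δ := by
  classical
  by_contra hcon
  push Not at hcon
  have h1 : ∀ A : Finset ℕ, (∀ ℓ ∈ A, ℓ ∈ D ∧ B < ℓ) → ∑ ℓ ∈ A, (1 : ℝ) / ℓ ≤ - Real.log δ := by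
    intro A hA
    have h2 := hcon A hA
    have h3 : ∏ ℓ ∈ A, (((ℓ : ℝ) - 1) / ℓ) ≤ Real.exp (- ∑ ℓ ∈ A, (1 : ℝ) / ℓ) := by
      rw [← Finset.sum_neg_distrib, Real.exp_sum]
      apply Finset.prod_le_prod
      · intro ℓ hℓ
        have h4 : (1 : ℝ) ≤ ℓ := by exact_mod_cast (hD.1 ℓ (hA ℓ hℓ).1).one_lt.le
        exact div_nonneg (by linarith) (by linarith)
      · intro ℓ hℓ
        have h4 : (0 : ℝ) < ℓ := by exact_mod_cast (hD.1 ℓ (hA ℓ hℓ).1).pos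
        have h5 := Real.add_one_le_exp (-((1 : ℝ) / ℓ))
        calc ((ℓ : ℝ) - 1) / ℓ = -((1 : ℝ) / ℓ) + 1 := by field_simp; ring
          _ ≤ _ := h5
    have h4 := Real.log_le_log hδ (h2.trans h3)
    rw [Real.log_exp] at h4
    linarith
  set f : ℕ → ℝ := Set.indicator {p : ℕ | p ∈ D ∧ B < p} (fun n => (1 : ℝ) / n) with hf
  have hfs : Summable f := by
    apply summable_of_sum_le (c := - Real.log δ)
    · intro n
      apply Set.indicator_nonneg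
      intro m _
      positivity
    · intro u
      have h2 := h1 (u.filter fun p => p ∈ D ∧ B < p) fun ℓ hℓ => (Finset.mem_filter.1 hℓ).2
      rw [Finset.sum_filter] at h2
      refine le_trans (le_of_eq ?_) h2
      apply Finset.sum_congr rfl
      intro x _
      rw [hf, Set.indicator_apply]
      rfl
  apply hD.2
  rw [← summable_nat_add_iff (B + 1)]
  rw [← summable_nat_add_iff (B + 1)] at hfs
  refine hfs.congr fun n => ?_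
  rw [hf, Set.indicator_apply, Set.indicator_apply]
  have h2 : (n + (B + 1) ∈ {p : ℕ | p ∈ D ∧ B < p}) ↔ (n + (B + 1) ∈ D) := by
    simp only [Set.mem_ofPred_eq]
    constructor
    · exact fun h => h.1
    · exact fun h => ⟨h, by omega⟩
  by_cases h3 : n + (B + 1) ∈ D
  · rw [if_pos h3, if_pos (h2.2 h3)]
  · rw [if_neg h3, if_neg fun h => h3 (h2.1 h)]

variable {K : Type} [Field K] [NumberField K]

/-- the bound for the density -/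
lemma ratio_le {A : Finset ℕ} (hA : ∀ ℓ ∈ A, ℓ.Prime) (hd : ∀ ℓ ∈ A, Module.finrank ℚ K + 1 < ℓ)
    {c : ℕ → K} (hc : ∀ ℓ ∈ A, ∀ x : K, x ^ ℓ ≠ c ℓ) :
    (((QuotientGroup.mk : GK K → GK K ⧸ UU A c) '' CC A c).ncard : ℝ) /
      (Nat.card (GK K ⧸ UU A c) : ℝ) ≤
      (Module.finrank ℚ K : ℝ) * ∏ ℓ ∈ A, (((ℓ : ℝ) - 1) / ℓ) := by
  have hfin : Finite (GK K ⧸ UU A c) :=
    Subgroup.quotient_finite_of_isOpen _ (isOpen_UU A (fun ℓ hℓ => (hA ℓ hℓ).pos) c)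
  have hc0 : ∀ ℓ ∈ A, c ℓ ≠ 0 := fun ℓ hℓ h0 => hc ℓ hℓ 0 (by rw [h0, zero_pow (hA ℓ hℓ).ne_zero])
  have h1 : (((QuotientGroup.mk : GK K → GK K ⧸ UU A c) '' CC A c).ncard : ℝ) ≤
      (∏ ℓ ∈ A, ((ℓ : ℝ) - 1)) ^ 2 := by
    have h := upper hA hc0
    have h' : (((QuotientGroup.mk : GK K → GK K ⧸ UU A c) '' CC A c).ncard : ℝ) ≤
        ((∏ ℓ ∈ A, (ℓ - 1) ^ 2 : ℕ) : ℝ) := by exact_mod_cast h
    refine h'.trans (le_of_eq ?_)
    rw [Nat.cast_prod, ← Finset.prod_pow]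
    apply Finset.prod_congr rfl
    intro ℓ hℓ
    rw [Nat.cast_pow, Nat.cast_sub (hA ℓ hℓ).one_lt.le, Nat.cast_one]
  have h2 : (∏ ℓ ∈ A, ((ℓ : ℝ) - 1)) * ∏ ℓ ∈ A, (ℓ : ℝ) ≤
      (Module.finrank ℚ K : ℝ) * Nat.card (GK K ⧸ UU A c) := by
    have h := lower hA hd hc
    have h' : (((∏ ℓ ∈ A, (ℓ - 1)) * ∏ ℓ ∈ A, ℓ : ℕ) : ℝ) ≤
        ((Module.finrank ℚ K * Nat.card (GK K ⧸ UU A c) : ℕ) : ℝ) := by exact_mod_cast h
    rw [Nat.cast_mul, Nat.cast_mul, Nat.cast_prod, Nat.cast_prod] at h'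
    refine le_trans (le_of_eq ?_) h'
    congr 1
    apply Finset.prod_congr rfl
    intro ℓ hℓ
    rw [Nat.cast_sub (hA ℓ hℓ).one_lt.le, Nat.cast_one]
  have h3 : 0 < ∏ ℓ ∈ A, ((ℓ : ℝ) - 1) := by
    apply Finset.prod_pos
    intro ℓ hℓ
    have : (1 : ℝ) < ℓ := by exact_mod_cast (hA ℓ hℓ).one_lt
    linarith
  have h4 : 0 < ∏ ℓ ∈ A, (ℓ : ℝ) := by
    apply Finset.prod_pos
    intro ℓ hℓ
    exact_mod_cast (hA ℓ hℓ).pos
  have h5 : (0 : ℝ) < Nat.card (GK K ⧸ UU A c) := by exact_mod_cast Nat.card_pos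
  rw [Finset.prod_div_distrib, div_le_iff₀ h5]
  set P := ∏ ℓ ∈ A, ((ℓ : ℝ) - 1)
  set Q := ∏ ℓ ∈ A, (ℓ : ℝ)
  refine h1.trans ?_
  have h6 : P ^ 2 = (P * Q) * (P / Q) := by
    field_simp
  rw [h6]
  calc (P * Q) * (P / Q) ≤ ((Module.finrank ℚ K : ℝ) * Nat.card (GK K ⧸ UU A c)) * (P / Q) :=
        mul_le_mul_of_nonneg_right h2 (by positivity)
    _ = _ := by ring

/-- **Sets of density zero.** -/
theorem zero_dens (S : Set (HeightOneSpectrum (𝓞 K))) {D : Set ℕ} (hD : Fat D) (B : ℕ)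
    (h : ∀ ℓ ∈ D, B < ℓ → ∃ c : 𝓞 K, (∀ x : K, x ^ ℓ ≠ c) ∧
      ∃ T : Set (HeightOneSpectrum (𝓞 K)), T.Finite ∧
        ∀ v ∈ S, v ∉ T → ∃ s : 𝓞 K, c - s ^ ℓ ∈ v.asIdeal) :
    Tendsto (dens fun v => v ∈ S) atTop (𝓝 0) := by
  classical
  have hchoice : ∀ ℓ : ℕ, ∃ c : 𝓞 K, ∃ T : Set (HeightOneSpectrum (𝓞 K)), ℓ ∈ D → B < ℓ →
      (∀ x : K, x ^ ℓ ≠ c) ∧ T.Finite ∧ ∀ v ∈ S, v ∉ T → ∃ s : 𝓞 K, c - s ^ ℓ ∈ v.asIdeal := by
    intro ℓ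
    by_cases h1 : ℓ ∈ D ∧ B < ℓ
    · obtain ⟨c, h2, T, h3, h4⟩ := h ℓ h1.1 h1.2
      exact ⟨c, T, fun _ _ => ⟨h2, h3, h4⟩⟩
    · exact ⟨0, ∅, fun h2 h3 => absurd ⟨h2, h3⟩ h1⟩
  choose c T hcT using hchoice
  rw [Metric.tendsto_atTop]
  intro ε hε
  set d : ℝ := (Module.finrank ℚ K : ℝ) with hd
  have hd0 : 0 < d := by
    rw [hd]
    exact_mod_cast Module.finrank_pos
  obtain ⟨A, hA, hprod⟩ := exists_primes hD (max B (Module.finrank ℚ K + 1)) (ε / 2 / d)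
    (by positivity)
  have hA0 : ∀ ℓ ∈ A, ℓ ∈ D := fun ℓ hℓ => (hA ℓ hℓ).1
  have hA1 : ∀ ℓ ∈ A, ℓ.Prime := fun ℓ hℓ => hD.1 ℓ (hA ℓ hℓ).1
  have hA2 : ∀ ℓ ∈ A, Module.finrank ℚ K + 1 < ℓ := fun ℓ hℓ =>
    lt_of_le_of_lt (le_max_right _ _) (hA ℓ hℓ).2
  have hA3 : ∀ ℓ ∈ A, B < ℓ := fun ℓ hℓ => lt_of_le_of_lt (le_max_left _ _) (hA ℓ hℓ).2
  set c' : ℕ → K := fun ℓ => ((c ℓ : 𝓞 K) : K) with hc'
  have hc : ∀ ℓ ∈ A, ∀ x : K, x ^ ℓ ≠ c' ℓ := fun ℓ hℓ => (hcT ℓ (hA0 ℓ hℓ) (hA3 ℓ hℓ)).1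
  have hcne : ∀ ℓ ∈ A, c ℓ ≠ 0 := by
    intro ℓ hℓ h0
    apply hc ℓ hℓ 0
    rw [hc', zero_pow (hA1 ℓ hℓ).ne_zero]
    simp only
    rw [h0]
    rfl
  have key := Pool.Agent.W528.Ord.chebK K (UU A c') (isOpen_UU A (fun ℓ hℓ => (hA1 ℓ hℓ).pos) c')
    (CC A c') (CC_conj A c') (CC_mul A c')
  have hratio := ratio_le hA1 hA2 hc
  have hlt : (((QuotientGroup.mk : GK K → GK K ⧸ UU A c') '' CC A c').ncard : ℝ) /
      (Nat.card (GK K ⧸ UU A c') : ℝ) < ε / 2 := by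
    refine lt_of_le_of_lt hratio ?_
    calc d * ∏ ℓ ∈ A, (((ℓ : ℝ) - 1) / ℓ) < d * (ε / 2 / d) := mul_lt_mul_of_pos_left hprod hd0
      _ = ε / 2 := by field_simp
  -- the exceptional places
  have hfinx : ∀ x : 𝓞 K, x ≠ 0 → {w : HeightOneSpectrum (𝓞 K) | x ∈ w.asIdeal}.Finite := by
    intro x hx
    have h1 := Ideal.finite_factors (R := 𝓞 K) (I := Ideal.span {x})
      (by rwa [Ne, Ideal.zero_eq_bot, Ideal.span_singleton_eq_bot])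
    refine h1.subset fun w hw => ?_
    exact Ideal.dvd_iff_le.2 ((Ideal.span_singleton_le_iff_mem _).2 hw)
  set E : Set (HeightOneSpectrum (𝓞 K)) := ⋃ ℓ ∈ A, (T ℓ ∪ {w | ((ℓ : ℕ) : 𝓞 K) ∈ w.asIdeal} ∪
    {w | c ℓ ∈ w.asIdeal}) with hE
  have hEfin : E.Finite := by
    refine Set.Finite.biUnion A.finite_toSet fun ℓ hℓ => ?_
    exact (((hcT ℓ (hA0 ℓ hℓ) (hA3 ℓ hℓ)).2.1).union
      (hfinx _ (Nat.cast_ne_zero.2 (hA1 ℓ hℓ).ne_zero))).union (hfinx _ (hcne ℓ hℓ))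
  have hsub : ∀ v ∈ S, v ∉ E → ∃ σ ∈ CC A c', IsFrob v σ := by
    intro v hv hvE
    obtain ⟨σ, hσ⟩ := (Pool.Agent.W401.Frob.main K).1 v
    refine ⟨σ, ?_, hσ⟩
    intro ℓ hℓ hfix z hz
    have hvE' : v ∉ T ℓ ∪ {w | ((ℓ : ℕ) : 𝓞 K) ∈ w.asIdeal} ∪ {w | c ℓ ∈ w.asIdeal} := fun h' =>
      hvE (Set.mem_iUnion₂.2 ⟨ℓ, hℓ, h'⟩)
    simp only [Set.mem_union, Set.mem_ofPred_eq, not_or] at hvE'
    obtain ⟨s, hs⟩ := (hcT ℓ (hA0 ℓ hℓ) (hA3 ℓ hℓ)).2.2 v hv hvE'.1.1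
    exact frob_fix hσ ℓ (hA1 ℓ hℓ).pos (c ℓ) (hcne ℓ hℓ) hvE'.2 hvE'.1.2 s hs z hz fun ζ hζ =>
      hfix ζ (by rw [hζ, map_one])
  have hbound : ∀ n : ℕ, dens (fun v => v ∈ S) n ≤
      dens (fun v : HeightOneSpectrum (𝓞 K) => ∃ σ ∈ CC A c', IsFrob v σ) n +
        (E.ncard : ℝ) / (Nat.primeCounting n : ℝ) := by
    intro n
    unfold dens
    rw [← add_div]
    apply div_le_div_of_nonneg_right _ (Nat.cast_nonneg _)
    have hfinn : {v : HeightOneSpectrum (𝓞 K) | Ideal.absNorm v.asIdeal ≤ n}.Finite := by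
      have h1 := Ideal.finite_setOfPred_absNorm_le (S := 𝓞 K) n
      exact Set.Finite.of_finite_image (f := fun v : HeightOneSpectrum (𝓞 K) => v.asIdeal)
        (h1.subset (by rintro _ ⟨v, hv, rfl⟩; exact hv))
        (fun v _ w _ hvw => HeightOneSpectrum.ext hvw)
    have h1 : Nat.card {v : HeightOneSpectrum (𝓞 K) // Ideal.absNorm v.asIdeal ≤ n ∧ v ∈ S} =
        {v : HeightOneSpectrum (𝓞 K) | Ideal.absNorm v.asIdeal ≤ n ∧ v ∈ S}.ncard := rfl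
    have h2 : Nat.card {v : HeightOneSpectrum (𝓞 K) // Ideal.absNorm v.asIdeal ≤ n ∧
        ∃ σ ∈ CC A c', IsFrob v σ} =
        {v : HeightOneSpectrum (𝓞 K) | Ideal.absNorm v.asIdeal ≤ n ∧
          ∃ σ ∈ CC A c', IsFrob v σ}.ncard := rfl
    rw [h1, h2]
    have h3 : {v : HeightOneSpectrum (𝓞 K) | Ideal.absNorm v.asIdeal ≤ n ∧ v ∈ S} ⊆
        {v : HeightOneSpectrum (𝓞 K) | Ideal.absNorm v.asIdeal ≤ n ∧
          ∃ σ ∈ CC A c', IsFrob v σ} ∪ E := by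
      rintro v ⟨hv1, hv2⟩
      by_cases hvE : v ∈ E
      · exact Or.inr hvE
      · exact Or.inl ⟨hv1, hsub v hv2 hvE⟩
    have h4 := Set.ncard_le_ncard h3 ((hfinn.subset fun v hv => hv.1).union hEfin)
    have h5 := h4.trans (Set.ncard_union_le _ _)
    exact_mod_cast h5
  have hlim : Tendsto (fun n : ℕ =>
      dens (fun v : HeightOneSpectrum (𝓞 K) => ∃ σ ∈ CC A c', IsFrob v σ) n +
        (E.ncard : ℝ) / (Nat.primeCounting n : ℝ)) atTop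
      (𝓝 ((((QuotientGroup.mk : GK K → GK K ⧸ UU A c') '' CC A c').ncard : ℝ) /
      (Nat.card (GK K ⧸ UU A c') : ℝ) + 0)) := by
    refine key.add ?_
    apply Tendsto.const_div_atTop
    exact tendsto_natCast_atTop_atTop.comp Nat.tendsto_primeCounting
  have hev := hlim.eventually_lt_const (u := ε / 2 + ε / 4) (by linarith)
  obtain ⟨N, hN⟩ := Filter.eventually_atTop.1 hev
  refine ⟨N, fun n hn => ?_⟩
  have h1 := hN n hn
  have h2 := hbound n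
  have h3 : 0 ≤ dens (fun v => v ∈ S) n := by
    unfold dens
    positivity
  rw [Real.dist_eq, sub_zero, abs_of_nonneg h3]
  linarith

end Pool.Agent.U36.DN
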