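import Pool.Agent.U36.DN.DZ
import Pool.Agent.U36.SC.Loc

/-!
Places of degree one of an extension `K(θ)`, given by residues of `θ`.
-/

set_option autoImplicit false
set_option linter.unusedSectionVars false
set_option linter.unusedVariables false

open NumberField Polynomial Pool.Agent.W401.Cheb IsDedekindDomain Filter Topology

namespace Pool.Agent.U36.DN

variable {K : Type} [Field K] [NumberField K] {L : Type} [Field L] [NumberField L] [Algebra K L]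

lemma finite_mem {x : 𝓞 K} (hx : x ≠ 0) : {w : HeightOneSpectrum (𝓞 K) | x ∈ w.asIdeal}.Finite := by
  have h1 := Ideal.finite_factors (R := 𝓞 K) (I := Ideal.span {x})
    (by rwa [Ne, Ideal.zero_eq_bot, Ideal.span_singleton_eq_bot])
  refine h1.subset fun w hw => ?_
  exact Ideal.dvd_iff_le.2 ((Ideal.span_singleton_le_iff_mem _).2 hw)

/-- a multiple of every integer is a polynomial in `θ` -/
lemma exists_conductor (θ : 𝓞 L) (hθ : Algebra.adjoin K {(θ : L)} = ⊤) :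
    ∃ d : 𝓞 K, d ≠ 0 ∧ ∀ x : 𝓞 L, ∃ q : (𝓞 K)[X], algebraMap (𝓞 K) (𝓞 L) d * x = aeval θ q := by
  classical
  have key : ∀ x : 𝓞 L, ∃ d : 𝓞 K, d ≠ 0 ∧ ∃ q : (𝓞 K)[X],
      algebraMap (𝓞 K) (𝓞 L) d * x = aeval θ q := by
    intro x
    have h1 : (x : L) ∈ Algebra.adjoin K {(θ : L)} := by rw [hθ]; trivial
    rw [Algebra.adjoin_singleton_eq_range_aeval] at h1
    obtain ⟨p, hp⟩ := h1
    obtain ⟨d, hd, hdp⟩ := IsLocalization.integerNormalization_spec (nonZeroDivisors (𝓞 K)) p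
    refine ⟨d, nonZeroDivisors.ne_zero hd, IsLocalization.integerNormalization (nonZeroDivisors (𝓞 K)) p, ?_⟩
    apply RingOfIntegers.coe_injective
    have e1 : ((aeval θ (IsLocalization.integerNormalization (nonZeroDivisors (𝓞 K)) p) : 𝓞 L) : L) =
        aeval (θ : L) ((IsLocalization.integerNormalization (nonZeroDivisors (𝓞 K)) p).map
          (algebraMap (𝓞 K) K)) := by
      rw [aeval_map_algebraMap]
      exact (aeval_algebraMap_apply L θ _).symm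
    refine Eq.trans ?_ e1.symm
    have hp' : aeval (θ : L) p = (x : L) := hp
    have e2 : (IsLocalization.integerNormalization (nonZeroDivisors (𝓞 K)) p).map
        (algebraMap (𝓞 K) K) = C (algebraMap (𝓞 K) K d) * p := by
      rw [hdp]
      ext i
      rw [coeff_C_mul, ← Algebra.smul_def]
      exact coeff_smul d p i
    have e3 : aeval (θ : L) (C (algebraMap (𝓞 K) K d) * p) =
        algebraMap K L (algebraMap (𝓞 K) K d) * (x : L) := by
      rw [map_mul, aeval_C, hp']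
    rw [e2, e3, map_mul]
    rfl
  obtain ⟨G, hG⟩ := (Module.Finite.fg_top : (⊤ : Submodule (𝓞 K) (𝓞 L)).FG)
  choose d hd0 q hq using key
  refine ⟨∏ g ∈ G, d g, Finset.prod_ne_zero_iff.2 fun g _ => hd0 g, fun x => ?_⟩
  have hx : x ∈ Submodule.span (𝓞 K) (G : Set (𝓞 L)) := by rw [hG]; trivial
  induction hx using Submodule.span_induction with
  | mem g hg =>
    refine ⟨C (∏ g' ∈ G.erase g, d g') * q g, ?_⟩
    rw [← Finset.mul_prod_erase G d hg, map_mul, map_mul, aeval_C, ← hq]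
    ring
  | zero => exact ⟨0, by rw [mul_zero, map_zero]⟩
  | add a b _ _ ha hb =>
    obtain ⟨p, hp⟩ := ha
    obtain ⟨r, hr⟩ := hb
    exact ⟨p + r, by rw [mul_add, hp, hr, map_add]⟩
  | smul c a _ ha =>
    obtain ⟨p, hp⟩ := ha
    refine ⟨C c * p, ?_⟩
    rw [map_mul, aeval_C, ← hp, Algebra.smul_def]
    ring

/-- the residue degree is one -/
lemma norm_le {θ : 𝓞 L} {d : 𝓞 K}
    (hd : ∀ x : 𝓞 L, ∃ q : (𝓞 K)[X], algebraMap (𝓞 K) (𝓞 L) d * x = aeval θ q)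
    (v : HeightOneSpectrum (𝓞 K)) (Q : HeightOneSpectrum (𝓞 L))
    (hQv : Q.asIdeal.comap (algebraMap (𝓞 K) (𝓞 L)) = v.asIdeal) (hdv : d ∉ v.asIdeal) (a : 𝓞 K)
    (ha : algebraMap (𝓞 K) (𝓞 L) a - θ ∈ Q.asIdeal) :
    Ideal.absNorm Q.asIdeal ≤ Ideal.absNorm v.asIdeal := by
  have hfin : Finite (𝓞 K ⧸ v.asIdeal) := v.asIdeal.finiteQuotientOfFreeOfNeBot v.ne_bot
  have hmax : v.asIdeal.IsMaximal := v.isPrime.isMaximal v.ne_bot
  obtain ⟨e, he⟩ : ∃ e : 𝓞 K, d * e - 1 ∈ v.asIdeal := by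
    have h1 : (Ideal.Quotient.mk v.asIdeal d) ≠ 0 := by
      rwa [Ne, Ideal.Quotient.eq_zero_iff_mem]
    let _ := Ideal.Quotient.field v.asIdeal
    obtain ⟨e, he⟩ := Ideal.Quotient.mk_surjective (Ideal.Quotient.mk v.asIdeal d)⁻¹
    refine ⟨e, ?_⟩
    rw [← Ideal.Quotient.eq, map_mul, he, map_one, mul_inv_cancel₀ h1]
  have hsurj : Function.Surjective (Ideal.quotientMap Q.asIdeal (algebraMap (𝓞 K) (𝓞 L))
      (le_of_eq hQv.symm)) := by
    intro y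
    obtain ⟨x, rfl⟩ := Ideal.Quotient.mk_surjective y
    obtain ⟨q, hq⟩ := hd x
    refine ⟨Ideal.Quotient.mk _ (e * q.eval a), ?_⟩
    rw [Ideal.quotientMap_mk, Ideal.Quotient.eq]
    -- e q(a) - x ∈ Q
    have h1 : aeval (algebraMap (𝓞 K) (𝓞 L) a) q - aeval θ q ∈ Q.asIdeal := by
      obtain ⟨w, hw⟩ := sub_dvd_eval_sub (algebraMap (𝓞 K) (𝓞 L) a) θ (q.map (algebraMap (𝓞 K) (𝓞 L)))
      rw [eval_map_algebraMap, eval_map_algebraMap] at hw
      rw [hw]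
      exact Q.asIdeal.mul_mem_right _ ha
    have h2 : algebraMap (𝓞 K) (𝓞 L) (d * e - 1) ∈ Q.asIdeal := by
      rw [← Ideal.mem_comap, hQv]
      exact he
    have h3 : aeval (algebraMap (𝓞 K) (𝓞 L) a) q = algebraMap (𝓞 K) (𝓞 L) (q.eval a) := by
      rw [aeval_algebraMap_apply]
      rfl
    rw [h3, ← hq] at h1
    have h4 : algebraMap (𝓞 K) (𝓞 L) (e * q.eval a) - x =
        algebraMap (𝓞 K) (𝓞 L) e * (algebraMap (𝓞 K) (𝓞 L) (q.eval a) - algebraMap (𝓞 K) (𝓞 L) d * x) +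
          algebraMap (𝓞 K) (𝓞 L) (d * e - 1) * x := by
      rw [map_mul, map_sub, map_mul, map_one]
      ring
    rw [h4]
    exact Q.asIdeal.add_mem (Q.asIdeal.mul_mem_left _ h1) (Q.asIdeal.mul_mem_right _ h2)
  rw [Ideal.absNorm_apply, Ideal.absNorm_apply, Submodule.cardQuot_apply, Submodule.cardQuot_apply]
  exact Nat.card_le_card_of_surjective _ hsurj

/-- **Sets of density zero**, with `ℓ`-th powers in an extension generated by `θ`. -/
theorem zero_dens_ext (θ : 𝓞 L) (hθ : Algebra.adjoin K {(θ : L)} = ⊤)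
    (S : Set (HeightOneSpectrum (𝓞 K))) (Q : HeightOneSpectrum (𝓞 K) → HeightOneSpectrum (𝓞 L))
    (hQv : ∀ v ∈ S, (Q v).asIdeal.comap (algebraMap (𝓞 K) (𝓞 L)) = v.asIdeal)
    (hQθ : ∀ v ∈ S, ∃ a : 𝓞 K, algebraMap (𝓞 K) (𝓞 L) a - θ ∈ (Q v).asIdeal)
    {D : Set ℕ} (hD : Fat D) (B : ℕ)
    (h : ∀ ℓ ∈ D, B < ℓ → ∃ c : 𝓞 L, (∀ x : L, x ^ ℓ ≠ c) ∧
      ∃ T : Set (HeightOneSpectrum (𝓞 K)), T.Finite ∧
        ∀ v ∈ S, v ∉ T → ∃ s : 𝓞 L, c - s ^ ℓ ∈ (Q v).asIdeal) : DZ S := by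
  obtain ⟨d, hd0, hd⟩ := exists_conductor θ hθ
  have hinj : ∀ v ∈ S, ∀ w ∈ S, Q v = Q w → v = w := by
    intro v hv w hw hvw
    apply HeightOneSpectrum.ext
    rw [← hQv v hv, ← hQv w hw, hvw]
  have hW : DZ (Q '' S) := by
    refine zero_dens _ hD B fun ℓ hℓ hB => ?_
    obtain ⟨c, hc, T, hT, hTc⟩ := h ℓ hℓ hB
    refine ⟨c, hc, Q '' T, hT.image Q, ?_⟩
    rintro _ ⟨v, hv, rfl⟩ hvT
    exact hTc v hv fun h' => hvT ⟨v, h', rfl⟩
  refine DZ.of_le hW (finite_mem hd0) Q (fun v hv hvE => ⟨⟨v, hv, rfl⟩, ?_⟩)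
    fun v hv w hw _ _ h' => hinj v hv w hw h'
  obtain ⟨a, ha⟩ := hQθ v hv
  exact norm_le hd v (Q v) (hQv v hv) hvE a ha

end Pool.Agent.U36.DN
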