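import Pool.Agent.U36.DN.Ext
import Pool.Agent.U36.BA.Seq

/-!
If the local values `w v` are near roots of `P` on a set of places which is not of density zero, and the
family of the `P' (w v)` is global modulo all powers, `P'` prime to `P`, then almost all `P' (w v)` are
units.
-/

set_option autoImplicit false
set_option linter.unusedSectionVars false
set_option linter.unusedVariables false

open NumberField Polynomial Pool.Agent.W401.Cheb IsDedekindDomain Filter Topology WithZero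

namespace Pool.Agent.U36.DN

open Pool.Agent.U36.BA

variable {K : Type} [Field K] [NumberField K]

/-- the value of a polynomial with integral coefficients at a local element -/
noncomputable def ev (P : (𝓞 K)[X]) (v : HeightOneSpectrum (𝓞 K)) (x : v.adicCompletion K) :
    v.adicCompletion K :=
  (P.map (algebraMap (𝓞 K) K)).eval₂ (algebraMap K (v.adicCompletion K)) x

lemma ev_sum (P : (𝓞 K)[X]) (v : HeightOneSpectrum (𝓞 K)) (x : v.adicCompletion K) :
    ev P v x = ∑ i ∈ Finset.range (P.natDegree + 1),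
      algebraMap K (v.adicCompletion K) (algebraMap (𝓞 K) K (P.coeff i)) * x ^ i := by
  unfold ev
  rw [eval₂_map, eval₂_eq_sum_range]
  rfl

lemma val_int (v : HeightOneSpectrum (𝓞 K)) (x : 𝓞 K) :
    Valued.v (algebraMap K (v.adicCompletion K) (algebraMap (𝓞 K) K x)) ≤ 1 := by
  rw [val_K]
  exact v.valuation_le_one x

lemma val_lt (v : HeightOneSpectrum (𝓞 K)) (x : 𝓞 K) :
    Valued.v (algebraMap K (v.adicCompletion K) (algebraMap (𝓞 K) K x)) < 1 ↔ x ∈ v.asIdeal := by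
  rw [val_K]
  exact v.valuation_lt_one_iff_mem x

lemma ev_le (P : (𝓞 K)[X]) (v : HeightOneSpectrum (𝓞 K)) {x : v.adicCompletion K}
    (hx : Valued.v x ≤ 1) : Valued.v (ev P v x) ≤ 1 := by
  rw [ev_sum]
  refine Valuation.map_sum_le _ fun i _ => ?_
  rw [map_mul, map_pow]
  exact mul_le_one' (val_int v _) (pow_le_one₀ zero_le hx)

lemma ev_sub (P : (𝓞 K)[X]) (v : HeightOneSpectrum (𝓞 K)) {x y : v.adicCompletion K}
    (hx : Valued.v x ≤ 1) (hy : Valued.v y ≤ 1) (h : Valued.v (x - y) < 1) :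
    Valued.v (ev P v x - ev P v y) < 1 := by
  rw [ev_sum, ev_sum, ← Finset.sum_sub_distrib]
  refine Valuation.map_sum_lt _ one_ne_zero fun i _ => ?_
  rw [← mul_sub, map_mul]
  exact mul_lt_one_of_nonneg_of_lt_one_right (val_int v _) zero_le
    (Pool.Agent.U36.SC.pow_sub_lt _ hx hy h i)

lemma ev_int (P : (𝓞 K)[X]) (v : HeightOneSpectrum (𝓞 K)) (a : 𝓞 K) :
    ev P v (algebraMap K (v.adicCompletion K) (algebraMap (𝓞 K) K a)) =
      algebraMap K (v.adicCompletion K) (algebraMap (𝓞 K) K (P.eval a)) := by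
  unfold ev
  rw [eval₂_map, ← RingHom.comp_apply, ← RingHom.comp_apply, eval₂_at_apply]

/-- integral elements of the algebraic closure -/
lemma exists_iot (z : AlgebraicClosure K) : ∃ y : 𝓞 (AlgebraicClosure K), IsIntegral ℤ z →
    algebraMap (𝓞 (AlgebraicClosure K)) (AlgebraicClosure K) y = z := by
  by_cases h : IsIntegral ℤ z
  · exact ⟨⟨z, h⟩, fun _ => rfl⟩
  · exact ⟨0, fun h' => absurd h' h⟩

/-- integral elements of the algebraic closure -/
noncomputable def iot (z : AlgebraicClosure K) : 𝓞 (AlgebraicClosure K) := (exists_iot z).choose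

lemma iot_coe {z : AlgebraicClosure K} (h : IsIntegral ℤ z) :
    algebraMap (𝓞 (AlgebraicClosure K)) (AlgebraicClosure K) (iot z) = z :=
  (exists_iot z).choose_spec h

lemma root_int {P : (𝓞 K)[X]} (hP : P.Monic) {z : AlgebraicClosure K}
    (hz : (P.map (algebraMap (𝓞 K) (AlgebraicClosure K))).IsRoot z) : IsIntegral ℤ z := by
  have h1 : IsIntegral (𝓞 K) z := ⟨P, hP, by
    rw [← eval_map]
    exact hz⟩
  exact isIntegral_trans (R := ℤ) (A := 𝓞 K) z h1

lemma exists_root {P : (𝓞 K)[X]} (hP : P.Monic) (v : HeightOneSpectrum (𝓞 K))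
    (Q : Ideal (𝓞 (AlgebraicClosure K))) (hQ : Q.IsPrime)
    (hQv : Q.comap (algebraMap (𝓞 K) (𝓞 (AlgebraicClosure K))) = v.asIdeal) (a : 𝓞 K)
    (ha : P.eval a ∈ v.asIdeal) :
    ∃ θ ∈ (P.map (algebraMap (𝓞 K) (AlgebraicClosure K))).roots,
      algebraMap (𝓞 K) (𝓞 (AlgebraicClosure K)) a - iot θ ∈ Q := by
  set R := (P.map (algebraMap (𝓞 K) (AlgebraicClosure K))).roots with hR
  have h1 : algebraMap (𝓞 K) (𝓞 (AlgebraicClosure K)) (P.eval a) =
      (R.map fun θ => algebraMap (𝓞 K) (𝓞 (AlgebraicClosure K)) a - iot θ).prod := by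
    apply RingOfIntegers.coe_injective
    have e1 : ((algebraMap (𝓞 K) (𝓞 (AlgebraicClosure K)) (P.eval a) : 𝓞 (AlgebraicClosure K)) :
        AlgebraicClosure K) = (P.map (algebraMap (𝓞 K) (AlgebraicClosure K))).eval
          (algebraMap (𝓞 K) (AlgebraicClosure K) a) := by
      rw [eval_map, eval₂_hom]
      rfl
    have e2 : (P.map (algebraMap (𝓞 K) (AlgebraicClosure K))) =
        (R.map fun θ => X - C θ).prod :=
      (IsAlgClosed.splits _).eq_prod_roots_of_monic (hP.map _)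
    refine e1.trans ?_
    rw [e2, eval_multiset_prod, Multiset.map_map, map_multiset_prod, Multiset.map_map]
    congr 1
    apply Multiset.map_congr rfl
    intro θ hθ
    simp only [Function.comp_apply, eval_sub, eval_X, eval_C, map_sub]
    rw [iot_coe (root_int hP (isRoot_of_mem_roots hθ))]
    rfl
  have h2 : algebraMap (𝓞 K) (𝓞 (AlgebraicClosure K)) (P.eval a) ∈ Q := by
    rw [← Ideal.mem_comap, hQv]
    exact ha
  rw [h1] at h2
  obtain ⟨y, hy, hyQ⟩ := (hQ.multiset_prod_mem_iff_exists_mem _).1 h2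
  obtain ⟨θ, hθ, rfl⟩ := Multiset.mem_map.1 hy
  exact ⟨θ, hθ, hyQ⟩

lemma adjoin_gen {θ : AlgebraicClosure K} :
    Algebra.adjoin K {IntermediateField.AdjoinSimple.gen K θ} = ⊤ := by
  have hint : IsIntegral K θ := Algebra.IsIntegral.isIntegral θ
  have h := (IntermediateField.adjoin.powerBasis hint).adjoin_gen_eq_top
  rwa [IntermediateField.adjoin.powerBasis_gen] at h

/-- **Places near the roots of `P`.** -/
theorem far {P P' : (𝓞 K)[X]} (hP : P.Monic)
    (hcop : IsCoprime (P.map (algebraMap (𝓞 K) K)) (P'.map (algebraMap (𝓞 K) K)))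
    (w : ∀ v : HeightOneSpectrum (𝓞 K), v.adicCompletion K)
    (hkum : ∀ ℓ : ℕ, 1 ≤ ℓ → ∃ b : K, b ≠ 0 ∧ ∀ v, ∃ u : v.adicCompletion K, u ≠ 0 ∧
      ev P' v (w v) = algebraMap K (v.adicCompletion K) b * u ^ ℓ)
    (S : Set (HeightOneSpectrum (𝓞 K)))
    (hS : ∀ v ∈ S, Valued.v (w v) ≤ 1 ∧ Valued.v (ev P v (w v)) < 1) (hnd : ¬ DZ S) :
    {v : HeightOneSpectrum (𝓞 K) | Valued.v (ev P' v (w v)) ≠ 1}.Finite := by
  classical
  by_contra hinf
  apply hnd
  -- residues
  have ha : ∀ v : HeightOneSpectrum (𝓞 K), ∃ a : 𝓞 K, v ∈ S →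
      Valued.v (w v - algebraMap K (v.adicCompletion K) (algebraMap (𝓞 K) K a)) < 1 := by
    intro v
    by_cases hv : v ∈ S
    · obtain ⟨a, ha⟩ := exists_near_int v (w v) (hS v hv).1 (γ := 1) one_ne_zero
      exact ⟨a, fun _ => ha⟩
    · exact ⟨0, fun h => absurd h hv⟩
  choose a ha using ha
  have hPa : ∀ v ∈ S, P.eval (a v) ∈ v.asIdeal := by
    intro v hv
    rw [← val_lt, ← ev_int]
    have h1 := ev_sub P v (hS v hv).1 (val_int v (a v)) (ha v hv)
    have h2 : ev P v (algebraMap K (v.adicCompletion K) (algebraMap (𝓞 K) K (a v))) =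
        ev P v (w v) - (ev P v (w v) -
          ev P v (algebraMap K (v.adicCompletion K) (algebraMap (𝓞 K) K (a v)))) := by ring
    rw [h2]
    exact lt_of_le_of_lt (Valuation.map_sub _ _ _) (max_lt (hS v hv).2 h1)
  -- primes of the algebraic integers
  have hQQ : ∀ v : HeightOneSpectrum (𝓞 K), ∃ Q : Ideal (𝓞 (AlgebraicClosure K)), Q.IsMaximal ∧
      Q.comap (algebraMap (𝓞 K) (𝓞 (AlgebraicClosure K))) = v.asIdeal := by
    intro v
    obtain ⟨σ, Q, hQ, hQv, -⟩ := (Pool.Agent.W401.Frob.main K).1 v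
    exact ⟨Q, hQ, hQv⟩
  choose QQ hQm hQv using hQQ
  -- the decomposition
  have hsub : S ⊆ ⋃ θ ∈ (P.map (algebraMap (𝓞 K) (AlgebraicClosure K))).roots.toFinset,
      {v | v ∈ S ∧ algebraMap (𝓞 K) (𝓞 (AlgebraicClosure K)) (a v) - iot θ ∈ QQ v} := by
    intro v hv
    obtain ⟨θ, hθ, h⟩ := exists_root hP v (QQ v) (hQm v).isPrime (hQv v) (a v) (hPa v hv)
    exact Set.mem_iUnion₂.2 ⟨θ, Multiset.mem_toFinset.2 hθ, hv, h⟩
  refine DZ.mono (DZ.biUnion _ _ fun θ hθ => ?_) hsub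
  rw [Multiset.mem_toFinset] at hθ
  have hθr := isRoot_of_mem_roots hθ
  have hθi : IsIntegral ℤ θ := root_int hP hθr
  -- the extension
  have hfd : FiniteDimensional K (IntermediateField.adjoin K {θ}) :=
    IntermediateField.adjoin.finiteDimensional (Algebra.IsIntegral.isIntegral θ)
  have hfdQ : FiniteDimensional ℚ (IntermediateField.adjoin K {θ}) :=
    FiniteDimensional.trans ℚ K _
  have hNF : NumberField (IntermediateField.adjoin K {θ}) := ⟨⟩
  set L := IntermediateField.adjoin K {θ} with hL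
  set g : L := IntermediateField.AdjoinSimple.gen K θ with hg
  have hgθ : algebraMap L (AlgebraicClosure K) g = θ := IntermediateField.AdjoinSimple.algebraMap_gen K θ
  have hgi : IsIntegral ℤ g := by
    have h1 : IsIntegral ℤ (algebraMap L (AlgebraicClosure K) g) := by rw [hgθ]; exact hθi
    exact (isIntegral_algebraMap_iff (algebraMap L (AlgebraicClosure K)).injective).1 h1
  obtain ⟨θL, hθL⟩ : ∃ y : 𝓞 L, algebraMap (𝓞 L) L y = g := ⟨⟨g, hgi⟩, rfl⟩
  have hθι : algebraMap (𝓞 L) (𝓞 (AlgebraicClosure K)) θL = iot θ := by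
    apply RingOfIntegers.coe_injective
    refine Eq.trans ?_ (iot_coe hθi).symm
    rw [← hgθ, ← hθL]
    rfl
  have htow : ∀ x : 𝓞 K, algebraMap (𝓞 L) (𝓞 (AlgebraicClosure K)) (algebraMap (𝓞 K) (𝓞 L) x) =
      algebraMap (𝓞 K) (𝓞 (AlgebraicClosure K)) x := by
    intro x
    apply RingOfIntegers.coe_injective
    rfl
  have hQ : ∀ v : HeightOneSpectrum (𝓞 K), ∃ Q : HeightOneSpectrum (𝓞 L),
      Q.asIdeal = (QQ v).comap (algebraMap (𝓞 L) (𝓞 (AlgebraicClosure K))) := by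
    intro v
    have hpr : (QQ v).IsPrime := (hQm v).isPrime
    refine ⟨⟨(QQ v).comap (algebraMap (𝓞 L) (𝓞 (AlgebraicClosure K))), Ideal.comap_isPrime _ _, ?_⟩, rfl⟩
    intro h0
    apply v.ne_bot
    rw [eq_bot_iff]
    intro x hx
    rw [← hQv v, Ideal.mem_comap, ← htow, ← Ideal.mem_comap, h0, Ideal.mem_bot] at hx
    rw [Ideal.mem_bot]
    apply RingOfIntegers.coe_injective
    have h1 := congrArg (algebraMap (𝓞 L) L) hx
    have h2 : algebraMap K L (algebraMap (𝓞 K) K x) = 0 := by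
      rw [map_zero] at h1
      exact h1
    rw [(_root_.map_eq_zero _).1 h2, map_zero]
  choose Q hQ using hQ
  have hQK : ∀ v, (Q v).asIdeal.comap (algebraMap (𝓞 K) (𝓞 L)) = v.asIdeal := by
    intro v
    rw [hQ, Ideal.comap_comap, ← hQv v]
    congr 1
  -- the value at θ
  have hPθ : (P.map (algebraMap (𝓞 K) K)).eval₂ (algebraMap K L) g = 0 := by
    apply (algebraMap L (AlgebraicClosure K)).injective
    rw [map_zero, hom_eval₂, hgθ, eval₂_map, ← eval_map]
    exact hθr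
  obtain ⟨γ, hγ⟩ : ∃ γ : 𝓞 L, γ = aeval θL P' := ⟨_, rfl⟩
  have hγL : algebraMap (𝓞 L) L γ = (P'.map (algebraMap (𝓞 K) K)).eval₂ (algebraMap K L) g := by
    rw [hγ, eval₂_map, ← hθL]
    exact (aeval_algebraMap_apply L θL P').symm
  have hγ0 : γ ≠ 0 := by
    intro h0
    obtain ⟨A, B, hAB⟩ := hcop
    have h1 := congrArg (eval₂ (algebraMap K L) g) hAB
    rw [eval₂_add, eval₂_mul, eval₂_mul, hPθ, ← hγL, h0, map_zero, mul_zero, mul_zero, add_zero,
      eval₂_one] at h1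
    exact zero_ne_one h1
  -- the place v0
  have hT0 : {v : HeightOneSpectrum (𝓞 K) | γ ∈ (Q v).asIdeal}.Finite := by
    have h1 := finite_mem hγ0
    refine Set.Finite.of_finite_image (f := Q) (h1.subset ?_) ?_
    · rintro _ ⟨v, hv, rfl⟩
      exact hv
    · intro v _ v' _ h
      apply HeightOneSpectrum.ext
      rw [← hQK v, ← hQK v', h]
  obtain ⟨v0, hv0, hv0γ⟩ := (Set.Infinite.sdiff hinf hT0).nonempty
  rw [Set.mem_ofPred_eq] at hv0γ
  obtain ⟨e, he0, he⟩ := Pool.Agent.U36.SC.under_pow (K := K) (Q v0)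
  have hunder : (Q v0).under (𝓞 K) = v0 := HeightOneSpectrum.ext (hQK v0)
  rw [hunder] at he
  have hz0 : Valued.v (ev P' v0 (w v0)) ≠ 0 := by
    obtain ⟨b, hb, hbu⟩ := hkum 1 le_rfl
    obtain ⟨u, hu, h1⟩ := hbu v0
    rw [h1, map_mul, map_pow, pow_one]
    refine mul_ne_zero ?_ ((Valuation.ne_zero_iff _).2 hu)
    rw [Valuation.ne_zero_iff]
    exact (_root_.map_ne_zero _).2 hb
  set r : ℤ := log (Valued.v (ev P' v0 (w v0))) with hr
  have hr0 : r ≠ 0 := by
    intro h0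
    apply hv0
    rw [← exp_log hz0, ← hr, h0, exp_zero]
  refine zero_dens_ext (L := L) θL ?_ _ Q (fun v _ => hQK v) (fun v hv => ⟨a v, ?_⟩) fat_primes
    ((e : ℤ) * r).natAbs fun ℓ hℓ hB => ?_
  · have h1 : ((θL : 𝓞 L) : L) = g := hθL
    rw [h1]
    exact adjoin_gen
  · rw [hQ, Ideal.mem_comap, map_sub, htow, hθι]
    exact hv.2
  have hℓp : ℓ.Prime := hℓ
  obtain ⟨b, hb0, hb⟩ := hkum ℓ hℓp.one_lt.le
  obtain ⟨x, m, hm, hxm⟩ := IsFractionRing.div_surjective (A := 𝓞 K) b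
  have hm0 : m ≠ 0 := nonZeroDivisors.ne_zero hm
  have hmK : algebraMap (𝓞 K) K m ≠ 0 := fun h => hm0 (RingOfIntegers.coe_injective (h.trans (map_zero _).symm))
  obtain ⟨b', hb'⟩ : ∃ b' : 𝓞 K, algebraMap (𝓞 K) K b' = b * algebraMap (𝓞 K) K m ^ ℓ := by
    refine ⟨x * m ^ (ℓ - 1), ?_⟩
    rw [← hxm, map_mul, map_pow]
    obtain ⟨k, hk⟩ : ∃ k, ℓ = k + 1 := ⟨ℓ - 1, by have := hℓp.pos; omega⟩
    rw [hk, Nat.add_sub_cancel, pow_succ]
    field_simp
  have hb'0 : b' ≠ 0 := by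
    intro h0
    rw [h0, map_zero] at hb'
    exact mul_ne_zero hb0 (pow_ne_zero _ hmK) hb'.symm
  have hloc : ∀ v, ∃ u : v.adicCompletion K, u ≠ 0 ∧
      ev P' v (w v) = algebraMap K (v.adicCompletion K) (algebraMap (𝓞 K) K b') * u ^ ℓ := by
    intro v
    obtain ⟨u, hu, h1⟩ := hb v
    have hmv : algebraMap K (v.adicCompletion K) (algebraMap (𝓞 K) K m) ≠ 0 := (_root_.map_ne_zero _).2 hmK
    refine ⟨u / algebraMap K (v.adicCompletion K) (algebraMap (𝓞 K) K m), div_ne_zero hu hmv, ?_⟩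
    rw [h1, hb', map_mul, map_pow, div_pow, mul_assoc, mul_div_cancel₀ _ (pow_ne_zero _ hmv)]
  refine ⟨algebraMap (𝓞 K) (𝓞 L) b' ^ (ℓ - 1) * γ, ?_, {v | b' ∈ v.asIdeal}, finite_mem hb'0, ?_⟩
  · -- not an ℓ-th power
    intro y hy
    have h1 : (Q v0).valuation L y ^ ℓ = v0.valuation K (algebraMap (𝓞 K) K b') ^ (e * (ℓ - 1)) := by
      have h2 : y ^ ℓ = algebraMap K L (algebraMap (𝓞 K) K b') ^ (ℓ - 1) * algebraMap (𝓞 L) L γ := hy
      have h3 : (Q v0).valuation L (algebraMap (𝓞 L) L γ) = 1 := by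
        refine le_antisymm ((Q v0).valuation_le_one γ) ?_
        by_contra hlt
        exact hv0γ ((HeightOneSpectrum.valuation_lt_one_iff_mem (Q v0) γ).1 (not_le.1 hlt))
      rw [← map_pow, h2, map_mul, map_pow, h3, mul_one, he, ← pow_mul]
    obtain ⟨u, hu, h2⟩ := hloc v0
    have h3 : Valued.v (ev P' v0 (w v0)) = v0.valuation K (algebraMap (𝓞 K) K b') *
        Valued.v u ^ ℓ := by
      rw [h2, map_mul, map_pow, val_K]
    have hu0 : Valued.v u ≠ 0 := (Valuation.ne_zero_iff _).2 hu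
    have hbv0 : v0.valuation K (algebraMap (𝓞 K) K b') ≠ 0 := by
      intro h0
      rw [h0, zero_mul] at h3
      exact hz0 h3
    have hy0 : (Q v0).valuation L y ≠ 0 := by
      intro h0
      rw [h0, zero_pow hℓp.ne_zero] at h1
      exact pow_ne_zero _ hbv0 h1.symm
    have h4 := congrArg log h1
    rw [log_pow, log_pow] at h4
    have h5 := congrArg log h3
    rw [log_mul hbv0 (pow_ne_zero _ hu0), log_pow, ← hr] at h5
    have h6 : (ℓ : ℤ) ∣ e * r := by
      obtain ⟨k, hk⟩ : ∃ k, ℓ = k + 1 := ⟨ℓ - 1, by have := hℓp.pos; omega⟩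
      have h7 : ((ℓ : ℤ)) * log ((Q v0).valuation L y) =
          e * k * log (v0.valuation K (algebraMap (𝓞 K) K b')) := by
        have h8 := h4
        simp only [nsmul_eq_mul, Nat.cast_mul] at h8
        rw [h8, hk, Nat.add_sub_cancel]
      have h9 : r = log (v0.valuation K (algebraMap (𝓞 K) K b')) + ℓ * log (Valued.v u) := by
        rw [h5, nsmul_eq_mul]
      have h10 : (ℓ : ℤ) = k + 1 := by rw [hk]; push_cast; ring
      refine ⟨e * log (v0.valuation K (algebraMap (𝓞 K) K b')) + e * log (Valued.v u) -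
        log ((Q v0).valuation L y), ?_⟩
      rw [h9, mul_sub, h7]
      rw [h10]
      ring
    have h7 : ℓ ≤ ((e : ℤ) * r).natAbs := by
      have h8 := Int.natAbs_dvd_natAbs.2 h6
      rw [Int.natAbs_natCast] at h8
      exact Nat.le_of_dvd (Int.natAbs_pos.2 (mul_ne_zero (by exact_mod_cast he0) hr0)) h8
    omega
  · -- an ℓ-th power modulo Q v
    rintro v ⟨hv, hvθ⟩ hvb
    obtain ⟨u, hu, h2⟩ := hloc v
    have h3 : v.valuation K (algebraMap (𝓞 K) K b') = 1 := by
      refine le_antisymm (v.valuation_le_one b') ?_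
      by_contra hlt
      exact hvb ((HeightOneSpectrum.valuation_lt_one_iff_mem v b').1 (not_le.1 hlt))
    have h4 : Valued.v u ≤ 1 := by
      have h5 := ev_le P' v (hS v hv).1
      rw [h2, map_mul, val_K, h3, one_mul, map_pow] at h5
      by_contra hlt
      exact absurd h5 (not_le.2 (one_lt_pow₀ (not_le.1 hlt) hℓp.ne_zero))
    obtain ⟨s, hs⟩ := exists_near_int v u h4 (γ := 1) one_ne_zero
    have h5 := Pool.Agent.U36.SC.pow_sub_lt Valued.v h4 (val_int v s) hs ℓ
    have h6 := ev_sub P' v (hS v hv).1 (val_int v (a v)) (ha v hv)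
    have h7 : P'.eval (a v) - b' * s ^ ℓ ∈ v.asIdeal := by
      rw [← val_lt]
      have e1 : algebraMap K (v.adicCompletion K) (algebraMap (𝓞 K) K (P'.eval (a v) - b' * s ^ ℓ)) =
          algebraMap K (v.adicCompletion K) (algebraMap (𝓞 K) K b') *
            (u ^ ℓ - algebraMap K (v.adicCompletion K) (algebraMap (𝓞 K) K s) ^ ℓ) -
          (ev P' v (w v) - ev P' v (algebraMap K (v.adicCompletion K) (algebraMap (𝓞 K) K (a v)))) := by
        rw [ev_int, h2, map_sub, map_sub, map_mul, map_mul, map_pow, map_pow]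
        ring
      rw [e1]
      refine lt_of_le_of_lt (Valuation.map_sub _ _ _) (max_lt ?_ h6)
      rw [map_mul]
      exact mul_lt_one_of_nonneg_of_lt_one_right (val_int v b') zero_le h5
    have h8 : algebraMap (𝓞 K) (𝓞 L) (P'.eval (a v)) - γ ∈ (Q v).asIdeal := by
      have h9 : algebraMap (𝓞 K) (𝓞 L) (a v) - θL ∈ (Q v).asIdeal := by
        rw [hQ, Ideal.mem_comap, map_sub, htow, hθι]
        exact hvθ
      obtain ⟨k, hk⟩ := sub_dvd_eval_sub (algebraMap (𝓞 K) (𝓞 L) (a v)) θL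
        (P'.map (algebraMap (𝓞 K) (𝓞 L)))
      rw [eval_map_algebraMap, eval_map_algebraMap, ← hγ, aeval_algebraMap_apply] at hk
      have hk' : algebraMap (𝓞 K) (𝓞 L) (P'.eval (a v)) - γ =
          (algebraMap (𝓞 K) (𝓞 L) (a v) - θL) * k := hk
      rw [hk']
      exact (Q v).asIdeal.mul_mem_right _ h9
    refine ⟨algebraMap (𝓞 K) (𝓞 L) (b' * s), ?_⟩
    have h10 : algebraMap (𝓞 K) (𝓞 L) (P'.eval (a v) - b' * s ^ ℓ) ∈ (Q v).asIdeal := by
      rw [← Ideal.mem_comap, hQK]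
      exact h7
    obtain ⟨k, hk⟩ : ∃ k, ℓ = k + 1 := ⟨ℓ - 1, by have := hℓp.pos; omega⟩
    have e2 : algebraMap (𝓞 K) (𝓞 L) b' ^ (ℓ - 1) * γ - algebraMap (𝓞 K) (𝓞 L) (b' * s) ^ ℓ =
        algebraMap (𝓞 K) (𝓞 L) b' ^ (ℓ - 1) *
          (algebraMap (𝓞 K) (𝓞 L) (P'.eval (a v) - b' * s ^ ℓ) -
            (algebraMap (𝓞 K) (𝓞 L) (P'.eval (a v)) - γ)) := by
      rw [map_sub, map_mul, map_mul, map_pow, hk, Nat.add_sub_cancel]
      ring
    rw [e2]
    exact (Q v).asIdeal.mul_mem_left _ ((Q v).asIdeal.sub_mem h10 h8)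

end Pool.Agent.U36.DN
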