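import Pool.Agent.U36.SC.Cheb

/-!
A Frobenius element at `v` which fixes the `N`-th roots of unity fixes the `N`-th roots of an element
which is an `N`-th power modulo `v`.
-/

set_option autoImplicit false
set_option linter.unusedSectionVars false

open NumberField IsDedekindDomain Pool.Agent.W401.Cheb

namespace Pool.Agent.U36.DN

variable {L : Type} [Field L] [NumberField L]

theorem frob_fix {v : HeightOneSpectrum (𝓞 L)} {τ : GK L} (hτ : IsFrob v τ) (N : ℕ) (hN : 0 < N)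
    (c : 𝓞 L) (hc : c ≠ 0) (hvc : c ∉ v.asIdeal) (hvN : (N : 𝓞 L) ∉ v.asIdeal)
    (s : 𝓞 L) (his : c - s ^ N ∈ v.asIdeal) (ρ : AlgebraicClosure L)
    (hρ : ρ ^ N = algebraMap L (AlgebraicClosure L) (c : L))
    (hτZ : ∀ ζ : AlgebraicClosure L, ζ ^ N = 1 → τ ζ = ζ) : τ ρ = ρ := by
  classical
  by_contra hτρ
  obtain ⟨Q, hQm, hQv, hQ⟩ := hτ
  have hQp : Q.IsPrime := hQm.isPrime
  have hcomap : ∀ x : 𝓞 L, algebraMap (𝓞 L) (𝓞 (AlgebraicClosure L)) x ∈ Q ↔ x ∈ v.asIdeal := by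
    intro x
    rw [← hQv]
    rfl
  -- integral elements
  have hρi : IsIntegral ℤ (ρ) := by
    refine IsIntegral.of_pow hN ?_
    rw [hρ]
    exact (RingOfIntegers.isIntegral_coe (c)).map (algebraMap L (AlgebraicClosure L)).toIntAlgHom
  set r : 𝓞 (AlgebraicClosure L) := ⟨ρ, hρi⟩ with hr
  have hrN : r ^ N = algebraMap (𝓞 L) (𝓞 (AlgebraicClosure L)) (c) := by
    apply RingOfIntegers.ext
    change (ρ) ^ N = _
    rw [hρ]
    rfl
  have hc0 : algebraMap (𝓞 L) (𝓞 (AlgebraicClosure L)) (c) ∉ Q := fun h' =>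
    hvc ((hcomap _).1 h')
  have hr0 : r ∉ Q := by
    intro h'
    apply hc0
    rw [← hrN]
    exact Q.pow_mem_of_mem h' _ hN
  -- a primitive root of unity
  have hNz : NeZero N := ⟨hN.ne'⟩
  have hNz' : NeZero (N : AlgebraicClosure L) := ⟨Nat.cast_ne_zero.2 hN.ne'⟩
  obtain ⟨ζ₀, hζ₀⟩ := HasEnoughRootsOfUnity.exists_primitiveRoot (AlgebraicClosure L) N
  have hζ₀i : IsIntegral ℤ ζ₀ := IsIntegral.of_pow hN (by
    rw [hζ₀.pow_eq_one]
    exact isIntegral_one)
  set z₀ : 𝓞 (AlgebraicClosure L) := ⟨ζ₀, hζ₀i⟩ with hz₀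
  have hz₀p : IsPrimitiveRoot z₀ N := by
    apply IsPrimitiveRoot.of_map_of_injective
      (f := algebraMap (𝓞 (AlgebraicClosure L)) (AlgebraicClosure L)) (h := ?_)
      (RingOfIntegers.coe_injective)
    exact hζ₀
  have hprod := hz₀p.pow_sub_pow_eq_prod_sub_mul (x := r)
    (y := algebraMap (𝓞 L) (𝓞 (AlgebraicClosure L)) s) hN
  have hmem : r ^ N - algebraMap (𝓞 L) (𝓞 (AlgebraicClosure L)) s ^ N ∈ Q := by
    rw [hrN, ← map_pow, ← map_sub]
    exact (hcomap _).2 his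
  rw [hprod] at hmem
  obtain ⟨z, hz, hzQ⟩ := hQp.prod_mem_iff.1 hmem
  rw [Polynomial.mem_nthRootsFinset hN] at hz
  -- apply the Frobenius element
  have hq0 : 0 < Ideal.absNorm v.asIdeal := by
    rw [Nat.pos_iff_ne_zero, Ne, Ideal.absNorm_eq_zero_iff]
    exact v.ne_bot
  have hτQ : ∀ x : 𝓞 (AlgebraicClosure L), x ∈ Q → τ • x ∈ Q := by
    intro x hx
    have h1 := hQ x
    have h2 : x ^ Ideal.absNorm v.asIdeal ∈ Q := Q.pow_mem_of_mem hx _ hq0
    have h3 := Q.add_mem h1 h2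
    rwa [sub_add_cancel] at h3
  have hτz : τ • (r - z * algebraMap (𝓞 L) (𝓞 (AlgebraicClosure L)) s) =
      τ • r - z * algebraMap (𝓞 L) (𝓞 (AlgebraicClosure L)) s := by
    rw [smul_sub, smul_mul']
    congr 2
    · apply RingOfIntegers.ext
      change τ (z : AlgebraicClosure L) = z
      apply hτZ
      have := congrArg (algebraMap (𝓞 (AlgebraicClosure L)) (AlgebraicClosure L)) hz
      rwa [map_pow, map_one] at this
    · apply RingOfIntegers.ext
      change τ (algebraMap L (AlgebraicClosure L) (s : L)) = _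
      rw [AlgEquiv.commutes]
      rfl
  have h4 : τ • r - r ∈ Q := by
    have h5 := hτQ _ hzQ
    rw [hτz] at h5
    have h6 := Q.sub_mem h5 hzQ
    have e : τ • r - z * algebraMap (𝓞 L) (𝓞 (AlgebraicClosure L)) s -
        (r - z * algebraMap (𝓞 L) (𝓞 (AlgebraicClosure L)) s) = τ • r - r := by ring
    rwa [e] at h6
  -- the root of unity
  have hρ0 : ρ ≠ 0 := by
    intro h0
    have h1 := hρ
    rw [h0, zero_pow hN.ne'] at h1
    have h2 : ((c : 𝓞 L) : L) = 0 := ((_root_.map_eq_zero _).1 h1.symm)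
    exact hc (RingOfIntegers.coe_injective (h2.trans (map_zero _).symm))
  set ω : AlgebraicClosure L := τ (ρ) / ρ with hω
  have hωN : ω ^ N = 1 := by
    rw [hω, div_pow, ← map_pow, hρ, AlgEquiv.commutes, div_self]
    rw [← hρ]
    exact pow_ne_zero _ hρ0
  have hωi : IsIntegral ℤ ω := IsIntegral.of_pow hN (by
    rw [hωN]
    exact isIntegral_one)
  set w : 𝓞 (AlgebraicClosure L) := ⟨ω, hωi⟩ with hw
  have hτr : τ • r = w * r := by
    apply RingOfIntegers.ext
    change τ (ρ) = ω * ρ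
    rw [hω, div_mul_cancel₀ _ hρ0]
  have h7 : (w - 1) * r ∈ Q := by
    rw [sub_mul, one_mul, ← hτr]
    exact h4
  have h8 : w - 1 ∈ Q := (hQp.mem_or_mem h7).resolve_right hr0
  have hω1 : ω ≠ 1 := by
    intro h1
    apply hτρ
    rw [hω, div_eq_one_iff_eq hρ0] at h1
    exact h1
  have hw1 : w - 1 ≠ 0 := by
    intro h0
    apply hω1
    have h1 := congrArg (algebraMap (𝓞 (AlgebraicClosure L)) (AlgebraicClosure L)) h0
    rw [map_sub, map_one, map_zero, sub_eq_zero] at h1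
    exact h1
  have hwN : w ^ N = 1 := by
    apply RingOfIntegers.ext
    change ω ^ N = _
    rw [hωN]
    rfl
  have hgeom : ∑ j ∈ Finset.range N, w ^ j = 0 := by
    have h1 := geom_sum_mul w N
    rw [hwN, sub_self] at h1
    exact (mul_eq_zero.1 h1).resolve_right hw1
  have hNQ : (N : 𝓞 (AlgebraicClosure L)) ∈ Q := by
    have h1 : ∑ j ∈ Finset.range N, (w ^ j - 1) ∈ Q := by
      refine Q.sum_mem fun j _ => ?_
      obtain ⟨u, hu⟩ := sub_one_dvd_pow_sub_one w j
      rw [hu]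
      exact Q.mul_mem_right _ h8
    rw [Finset.sum_sub_distrib, hgeom, Finset.sum_const, Finset.card_range, nsmul_eq_mul, mul_one,
      zero_sub, neg_mem_iff] at h1
    exact h1
  apply hvN
  rw [← hcomap, map_natCast]
  exact hNQ

end Pool.Agent.U36.DN
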