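import Pool.Agent.U36.DN.Frob

/-!
Kummer theory over a number field for finitely many primes: the Galois group of the field generated by
the `ℓ`-th roots of unity and the `ℓ`-th roots of elements `c ℓ` which are not `ℓ`-th powers.
-/

set_option autoImplicit false
set_option linter.unusedSectionVars false

open NumberField Polynomial Pool.Agent.W401.Cheb

namespace Pool.Agent.U36.DN

variable {K : Type} [Field K] [NumberField K]

/-- the degree of a root of unity -/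
theorem cyc_deg (n : ℕ) (hn : 0 < n) (ζ : AlgebraicClosure K) (hζ : IsPrimitiveRoot ζ n) :
    n.totient ≤ Module.finrank ℚ K * (minpoly K ζ).natDegree := by
  have hint : IsIntegral K ζ := Algebra.IsIntegral.isIntegral ζ
  have hfd : FiniteDimensional K (IntermediateField.adjoin K {ζ}) :=
    IntermediateField.adjoin.finiteDimensional hint
  have hfdQ : FiniteDimensional ℚ (IntermediateField.adjoin K {ζ}) :=
    FiniteDimensional.trans ℚ K _
  set g := IntermediateField.AdjoinSimple.gen K ζ with hg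
  have hgζ : algebraMap (IntermediateField.adjoin K {ζ}) (AlgebraicClosure K) g = ζ :=
    IntermediateField.AdjoinSimple.algebraMap_gen K ζ
  have hgp : IsPrimitiveRoot g n := by
    apply IsPrimitiveRoot.of_map_of_injective
      (f := algebraMap (IntermediateField.adjoin K {ζ}) (AlgebraicClosure K)) (h := ?_)
      (algebraMap (IntermediateField.adjoin K {ζ}) (AlgebraicClosure K)).injective
    rw [hgζ]
    exact hζ
  have h1 : cyclotomic n ℚ = minpoly ℚ g := cyclotomic_eq_minpoly_rat hgp hn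
  have h2 : (minpoly ℚ g).natDegree ≤ Module.finrank ℚ (IntermediateField.adjoin K {ζ}) :=
    minpoly.natDegree_le g
  rw [← h1, natDegree_cyclotomic, ← Module.finrank_mul_finrank ℚ K,
    IntermediateField.adjoin.finrank hint] at h2
  exact h2

/-- `σ` fixes the roots of `X ^ ℓ = c` -/
def Fix (ℓ : ℕ) (c : K) (σ : GK K) : Prop :=
  ∀ z : AlgebraicClosure K, z ^ ℓ = algebraMap K (AlgebraicClosure K) c → σ z = z

lemma Fix.conj {ℓ : ℕ} {c : K} {σ : GK K} (h : Fix ℓ c σ) (τ : GK K) : Fix ℓ c (τ * σ * τ⁻¹) := by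
  intro z hz
  have h1 : σ (τ⁻¹ z) = τ⁻¹ z := by
    apply h
    rw [← map_pow, hz, AlgEquiv.commutes]
  rw [AlgEquiv.mul_apply, AlgEquiv.mul_apply, h1, ← AlgEquiv.mul_apply, mul_inv_cancel]
  rfl

lemma Fix.one (ℓ : ℕ) (c : K) : Fix ℓ c 1 := fun _ _ => rfl

lemma Fix.mul {ℓ : ℕ} {c : K} {σ τ : GK K} (h : Fix ℓ c σ) (h' : Fix ℓ c τ) : Fix ℓ c (σ * τ) := by
  intro z hz
  rw [AlgEquiv.mul_apply, h' z hz, h z hz]

lemma Fix.inv {ℓ : ℕ} {c : K} {σ : GK K} (h : Fix ℓ c σ) : Fix ℓ c σ⁻¹ := by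
  intro z hz
  have h1 := congrArg (fun w => (σ⁻¹ : GK K) w) (h z hz)
  simp only [← AlgEquiv.mul_apply, inv_mul_cancel] at h1
  exact h1.symm

/-- the subgroup fixing all `ℓ`-th roots of unity and of `c ℓ`, `ℓ ∈ A` -/
def UU (A : Finset ℕ) (c : ℕ → K) : Subgroup (GK K) where
  carrier := {σ | ∀ ℓ ∈ A, Fix ℓ (1 : K) σ ∧ Fix ℓ (c ℓ) σ}
  one_mem' := fun ℓ _ => ⟨Fix.one ℓ _, Fix.one ℓ _⟩
  mul_mem' := fun h h' ℓ hℓ => ⟨(h ℓ hℓ).1.mul (h' ℓ hℓ).1, (h ℓ hℓ).2.mul (h' ℓ hℓ).2⟩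
  inv_mem' := fun h ℓ hℓ => ⟨(h ℓ hℓ).1.inv, (h ℓ hℓ).2.inv⟩

instance (A : Finset ℕ) (c : ℕ → K) : (UU A c).Normal :=
  ⟨fun _ h τ ℓ hℓ => ⟨(h ℓ hℓ).1.conj τ, (h ℓ hℓ).2.conj τ⟩⟩

/-- the elements which fix the `ℓ`-th roots of `c ℓ` if they fix the `ℓ`-th roots of unity -/
def CC (A : Finset ℕ) (c : ℕ → K) : Set (GK K) := {σ | ∀ ℓ ∈ A, Fix ℓ (1 : K) σ → Fix ℓ (c ℓ) σ}

lemma CC_conj (A : Finset ℕ) (c : ℕ → K) : ∀ σ ∈ CC A c, ∀ τ : GK K, τ * σ * τ⁻¹ ∈ CC A c := by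
  intro σ hσ τ ℓ hℓ h
  have h1 : Fix ℓ (1 : K) σ := by
    have := h.conj τ⁻¹
    have e : τ⁻¹ * (τ * σ * τ⁻¹) * τ⁻¹⁻¹ = σ := by group
    rwa [e] at this
  exact (hσ ℓ hℓ h1).conj τ

lemma CC_mul (A : Finset ℕ) (c : ℕ → K) : ∀ σ ∈ CC A c, ∀ u ∈ UU A c, σ * u ∈ CC A c := by
  intro σ hσ u hu ℓ hℓ h
  have h1 : Fix ℓ (1 : K) σ := by
    have := h.mul (hu ℓ hℓ).1.inv
    rwa [mul_inv_cancel_right] at this
  exact (hσ ℓ hℓ h1).mul (hu ℓ hℓ).2

lemma isOpen_Fix {ℓ : ℕ} (hℓ : 0 < ℓ) (c : K) : IsOpen {σ : GK K | Fix ℓ c σ} := by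
  classical
  have h : {σ : GK K | Fix ℓ c σ} =
      ⋂ z ∈ (nthRoots ℓ (algebraMap K (AlgebraicClosure K) c)).toFinset, {σ : GK K | σ z = z} := by
    ext σ
    simp only [Set.mem_ofPred_eq, Set.mem_iInter, Multiset.mem_toFinset]
    constructor
    · intro h z hz
      exact h z ((mem_nthRoots hℓ).1 hz)
    · intro h z hz
      exact h z ((mem_nthRoots hℓ).2 hz)
  rw [h]
  exact isOpen_biInter_finset fun z _ => Pool.Agent.U36.SC.isOpen_fix z

lemma isOpen_UU (A : Finset ℕ) (hA : ∀ ℓ ∈ A, 0 < ℓ) (c : ℕ → K) :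
    IsOpen (UU A c : Set (GK K)) := by
  have h : (UU A c : Set (GK K)) =
      ⋂ ℓ ∈ A, ({σ : GK K | Fix ℓ (1 : K) σ} ∩ {σ : GK K | Fix ℓ (c ℓ) σ}) := by
    ext σ
    simp only [Set.mem_iInter, Set.mem_inter_iff, Set.mem_ofPred_eq, SetLike.mem_coe]
    rfl
  rw [h]
  exact isOpen_biInter_finset fun ℓ hℓ =>
    (isOpen_Fix (hA ℓ hℓ) _).inter (isOpen_Fix (hA ℓ hℓ) _)

lemma fix_of_prim {ℓ : ℕ} (hℓ : 0 < ℓ) {ζ : AlgebraicClosure K} (hζ : IsPrimitiveRoot ζ ℓ) {σ : GK K}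
    (h : σ ζ = ζ) : Fix ℓ (1 : K) σ := by
  intro z hz
  rw [map_one] at hz
  have : NeZero ℓ := ⟨hℓ.ne'⟩
  obtain ⟨i, -, rfl⟩ := hζ.eq_pow_of_pow_eq_one hz
  rw [map_pow, h]

lemma fix_of_root {ℓ : ℕ} (hℓ : 0 < ℓ) {c : K} {ρ : AlgebraicClosure K}
    (hρ : ρ ^ ℓ = algebraMap K (AlgebraicClosure K) c) (hc : c ≠ 0) {σ : GK K}
    (h1 : Fix ℓ (1 : K) σ) (h : σ ρ = ρ) : Fix ℓ c σ := by
  intro z hz
  have hρ0 : ρ ≠ 0 := by
    intro h0
    rw [h0, zero_pow hℓ.ne'] at hρ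
    exact hc ((_root_.map_eq_zero _).1 hρ.symm)
  have h2 : (z / ρ) ^ ℓ = algebraMap K (AlgebraicClosure K) 1 := by
    rw [div_pow, hz, hρ, map_one, div_self]
    rw [← hρ]
    exact pow_ne_zero _ hρ0
  have h3 := h1 _ h2
  rw [map_div₀, h, div_left_inj' hρ0] at h3
  exact h3

/-- an element of an abelian extension generated by roots of unity -/
lemma exists_move {ℓ n : ℕ} (hℓ : ℓ.Prime) (hℓn : ℓ ∣ n) (hn : 0 < n) {Z : AlgebraicClosure K}
    (hZ : IsPrimitiveRoot Z n) (hd : Module.finrank ℚ K + 1 < ℓ) {c : K} (hc : ∀ x : K, x ^ ℓ ≠ c)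
    {ρ : AlgebraicClosure K} (hρ : ρ ^ ℓ = algebraMap K (AlgebraicClosure K) c) :
    ∃ σ : GK K, σ Z = Z ∧ σ ρ ≠ ρ := by
  classical
  by_contra hcon
  push Not at hcon
  have hc0 : c ≠ 0 := fun h => hc 0 (by rw [h, zero_pow hℓ.ne_zero])
  have hρ0 : ρ ≠ 0 := by
    intro h0
    rw [h0, zero_pow hℓ.ne_zero] at hρ
    exact hc0 ((_root_.map_eq_zero _).1 hρ.symm)
  have hn0 : NeZero n := ⟨hn.ne'⟩
  have hℓ0 : NeZero ℓ := ⟨hℓ.ne_zero⟩
  -- commuting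
  have hcomm : ∀ σ τ : GK K, σ (τ ρ) = τ (σ ρ) := by
    intro σ τ
    have h1 : ((τ * σ)⁻¹ * (σ * τ)) Z = Z := by
      obtain ⟨i, -, hi⟩ := hZ.eq_pow_of_pow_eq_one (ξ := σ Z) (by rw [← map_pow, hZ.pow_eq_one, map_one])
      obtain ⟨j, -, hj⟩ := hZ.eq_pow_of_pow_eq_one (ξ := τ Z) (by rw [← map_pow, hZ.pow_eq_one, map_one])
      have h2 : (σ * τ) Z = (τ * σ) Z := by
        rw [AlgEquiv.mul_apply, AlgEquiv.mul_apply, ← hi, ← hj, map_pow, map_pow, ← hi, ← hj,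
          ← pow_mul, ← pow_mul, mul_comm]
      rw [AlgEquiv.mul_apply, h2, ← AlgEquiv.mul_apply, inv_mul_cancel]
      rfl
    have h2 := hcon _ h1
    have h3 := congrArg (τ * σ) h2
    rw [← AlgEquiv.mul_apply, mul_inv_cancel_left] at h3
    exact h3
  -- an element which moves the ℓ-th roots of unity
  set z : AlgebraicClosure K := Z ^ (n / ℓ) with hz
  have hzp : IsPrimitiveRoot z ℓ := hZ.pow hn (Nat.div_mul_cancel hℓn).symm
  obtain ⟨τ, hτ⟩ : ∃ τ : GK K, τ z ≠ z := by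
    by_contra hall
    push Not at hall
    obtain ⟨y, hy⟩ := (InfiniteGalois.mem_range_algebraMap_iff_fixed z).2 hall
    have h2 := cyc_deg ℓ hℓ.pos z hzp
    rw [← hy, minpoly.eq_X_sub_C, natDegree_X_sub_C, mul_one, Nat.totient_prime hℓ] at h2
    omega
  obtain ⟨a, -, ha⟩ := hzp.eq_pow_of_pow_eq_one (ξ := τ z) (by rw [← map_pow, hzp.pow_eq_one, map_one])
  have hpow : ∀ u : AlgebraicClosure K, u ^ ℓ = 1 → τ u = u ^ a := by
    intro u hu
    obtain ⟨i, -, rfl⟩ := hzp.eq_pow_of_pow_eq_one hu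
    rw [map_pow, ← ha, ← pow_mul z, ← pow_mul z, mul_comm]
  -- the inverse of a - 1
  obtain ⟨e, k, he⟩ : ∃ e k : ℕ, a * e = e + 1 + ℓ * k ∨ e + 1 + ℓ * k = a * e ∨
      a * e + ℓ * k = e + 1 := by
    have h1 : IsCoprime ((a : ℤ) - 1) (ℓ : ℤ) := by
      rw [isCoprime_comm]
      refine (Nat.prime_iff_prime_int.1 hℓ).irreducible.coprime_iff_not_dvd.2 ?_
      intro hdvd
      apply hτ
      rw [← ha]
      obtain ⟨m, hm⟩ := hdvd
      have h2 : z ^ ((a : ℤ)) = z := by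
        have : (a : ℤ) = 1 + ℓ * m := by linarith
        have hz0 : z ≠ 0 := hzp.ne_zero hℓ.ne_zero
        rw [this, zpow_add₀ hz0, zpow_one, zpow_mul, zpow_natCast, hzp.pow_eq_one, one_zpow, mul_one]
      exact_mod_cast h2
    obtain ⟨x, y, hxy⟩ := h1
    -- choose e ≥ 0 congruent to x
    refine ⟨(x % ℓ).toNat, ?_⟩
    have hℓpos : (0 : ℤ) < ℓ := by exact_mod_cast hℓ.pos
    have hx0 := Int.emod_nonneg x hℓpos.ne'
    have hx1 : ((x % ℓ).toNat : ℤ) = x % ℓ := Int.toNat_of_nonneg hx0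
    have hx2 : x = ℓ * (x / ℓ) + x % ℓ := (Int.mul_ediv_add_emod x ℓ).symm
    obtain ⟨t, ht⟩ : ∃ t : ℤ, (a : ℤ) * (x % ℓ) = (x % ℓ) + 1 + ℓ * t := by
      refine ⟨-(y + (x / ℓ) * (a - 1)), ?_⟩
      have : (x % ℓ : ℤ) = x - ℓ * (x / ℓ) := by linarith
      rw [this]
      linear_combination hxy
    rcases le_or_gt 0 t with h0 | h0
    · refine ⟨t.toNat, Or.inl ?_⟩
      have h3 : ((t.toNat : ℕ) : ℤ) = t := Int.toNat_of_nonneg h0
      zify
      rw [hx1, h3]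
      exact ht
    · refine ⟨(-t).toNat, Or.inr (Or.inr ?_)⟩
      have h3 : (((-t).toNat : ℕ) : ℤ) = -t := Int.toNat_of_nonneg (by linarith)
      zify
      rw [hx1, h3]
      linarith
  have hpe : ∀ u : AlgebraicClosure K, u ^ ℓ = 1 → (u ^ a) ^ e = u ^ e * u := by
    intro u hu
    have hu' : ∀ k : ℕ, u ^ (ℓ * k) = 1 := fun k => by rw [pow_mul, hu, one_pow]
    rw [← pow_mul]
    rcases he with he | he | he
    · rw [he, pow_add, pow_add, hu', mul_one, pow_one]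
    · rw [← he, pow_add, pow_add, hu', mul_one, pow_one]
    · have : u ^ (a * e) = u ^ (a * e + ℓ * k) := by rw [pow_add, hu', mul_one]
      rw [this, he, pow_add, pow_one]
  -- the fixed root
  set u : GK K → AlgebraicClosure K := fun σ => σ ρ / ρ with hu
  have huρ : ∀ σ, σ ρ = u σ * ρ := fun σ => (div_mul_cancel₀ _ hρ0).symm
  have huℓ : ∀ σ, u σ ^ ℓ = 1 := by
    intro σ
    rw [hu]
    simp only
    rw [div_pow, ← map_pow, hρ, AlgEquiv.commutes, div_self]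
    rw [← hρ]
    exact pow_ne_zero _ hρ0
  have hfix : ∀ σ : GK K, σ (ρ / u τ ^ e) = ρ / u τ ^ e := by
    intro σ
    have h1 := hcomm σ τ
    rw [huρ τ, huρ σ, map_mul, map_mul, huρ σ, huρ τ, hpow _ (huℓ σ)] at h1
    have h2 : σ (u τ) * u σ = u σ ^ a * u τ := by
      apply mul_right_cancel₀ hρ0
      linear_combination h1
    have hu0 : u σ ≠ 0 := by
      intro h0
      have := huℓ σ
      rw [h0, zero_pow hℓ.ne_zero] at this
      exact zero_ne_one this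
    have hu1 : u τ ≠ 0 := by
      intro h0
      have := huℓ τ
      rw [h0, zero_pow hℓ.ne_zero] at this
      exact zero_ne_one this
    have h3 : σ (u τ ^ e) = u σ * u τ ^ e := by
      have h4 : (σ (u τ) * u σ) ^ e = (u σ ^ a * u τ) ^ e := by rw [h2]
      rw [mul_pow, mul_pow, hpe _ (huℓ σ)] at h4
      have h5 : u σ ^ e ≠ 0 := pow_ne_zero _ hu0
      rw [map_pow]
      apply mul_right_cancel₀ h5
      rw [h4]
      ring
    rw [map_div₀, h3, huρ σ, mul_div_mul_left _ _ hu0]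
  obtain ⟨y, hy⟩ := (InfiniteGalois.mem_range_algebraMap_iff_fixed (ρ / u τ ^ e)).2 hfix
  apply hc y
  apply (algebraMap K (AlgebraicClosure K)).injective
  rw [map_pow, hy, div_pow, hρ, ← pow_mul, mul_comm e, pow_mul, huℓ, one_pow, div_one]

end Pool.Agent.U36.DN
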