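import Pool.Agent.U36.DN.Zero

/-!
Sections of fundamental groups of curves which are given locally by points: outside a set of places of
density zero the values of a unit `z`, with `1 - z` a unit, are integral.
-/

set_option autoImplicit false
set_option linter.unusedSectionVars false
set_option linter.unusedVariables false

open NumberField Polynomial Pool.Agent.W401.Cheb IsDedekindDomain Filter Topology WithZero

namespace Pool.Agent.U36.DN

open Pool.Agent.TH954 Pool.Agent.U36.BA Pool.Agent.U36.CM Pool.Agent.U36.SC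

variable {K : Type} [Field K] [NumberField K] {F M B : Type} [Field F] [Field M] [Field B]
  [Algebra K F] [Algebra F M] [Algebra K M] [Algebra K B] [IsScalarTower K F M]
  [IsAlgClosure K B] [Algebra.IsAlgebraic F M]
  {Ω : Type} [Field Ω] [Algebra F Ω] [Algebra K Ω] [IsScalarTower K F Ω] [IsAlgClosed Ω]
  {U : Set (ValuationSubring F)} (hU : ∀ O ∈ U, ∀ c : K, algebraMap K F c ∈ O)
  (e : M →ₐ[F] Ω) (he : Pool.Agent.W620.SC.unramified F Ω U = e.fieldRange)
  (s : GalSection K F M B)
  (p : ∀ v : HeightOneSpectrum (𝓞 K), Plc K M (AlgebraicClosure (v.adicCompletion K)))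
  (hp : ∀ v, s.GivenBy (v.adicCompletion K) (p v)) (hpU : ∀ v, PointOf U (p v))

include hU e he hp hpU in
/-- The places where `z` is near zero have density zero. -/
theorem near_zero {z : M} (hz : z ∈ units U s) (hz1 : 1 - z ∈ units U s)
    (x : ∀ v : HeightOneSpectrum (𝓞 K), v.adicCompletion K)
    (hx : ∀ v, (p v).val z
      (algebraMap (v.adicCompletion K) (AlgebraicClosure (v.adicCompletion K)) (x v))) :
    DZ {v : HeightOneSpectrum (𝓞 K) | Valued.v (x v) < 1} := by
  classical
  rcases fat_primes.split {ℓ : ℕ | ∃ w ∈ units U s, w ^ ℓ = 1 - z} with hR | hR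
  · obtain ⟨A, hA, hcard⟩ := hR.infinite.exists_subset_card_eq (Module.finrank ℚ K)
    obtain ⟨w, hw, hwn⟩ := root_units s A (fun ℓ hℓ => (hA hℓ).1) hz1 (fun ℓ hℓ => (hA hℓ).2)
    have hpos : 0 < ∏ ℓ ∈ A, ℓ := Finset.prod_pos fun ℓ hℓ => ((hA hℓ).1 : ℓ.Prime).pos
    refine near_root hU e he s p hp hpU hz hw hpos hwn ?_ x hx
    have h1 : (1 : ℕ) ∉ A := fun h => Nat.not_prime_one (hA h).1
    rw [← hcard, ← Finset.card_insert_of_notMem h1]
    apply Finset.card_le_card
    intro ℓ hℓ
    rw [Nat.mem_divisors]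
    refine ⟨?_, hpos.ne'⟩
    rcases Finset.mem_insert.1 hℓ with rfl | hℓ
    · exact one_dvd _
    · exact Finset.dvd_prod_of_mem _ hℓ
  · refine zero_dens _ hR 0 fun ℓ hℓ _ => ?_
    have hℓp : ℓ.Prime := hℓ.1
    obtain ⟨b, w, hb0, hw, h⟩ := kum_unit hU e he s hz1 ℓ hℓp.pos
    obtain ⟨y, m, hm, hym⟩ := IsFractionRing.div_surjective (A := 𝓞 K) b
    have hm0 : m ≠ 0 := nonZeroDivisors.ne_zero hm
    have hmK : algebraMap (𝓞 K) K m ≠ 0 :=
      fun h => hm0 (RingOfIntegers.coe_injective (h.trans (map_zero _).symm))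
    obtain ⟨b', hb'⟩ : ∃ b' : 𝓞 K, algebraMap (𝓞 K) K b' = b * algebraMap (𝓞 K) K m ^ ℓ := by
      refine ⟨y * m ^ (ℓ - 1), ?_⟩
      rw [← hym, map_mul, map_pow]
      obtain ⟨k, hk⟩ : ∃ k, ℓ = k + 1 := ⟨ℓ - 1, by have := hℓp.pos; omega⟩
      rw [hk, Nat.add_sub_cancel, pow_succ]
      field_simp
    have hb'0 : b' ≠ 0 := by
      intro h0
      rw [h0, map_zero] at hb'
      exact mul_ne_zero hb0 (pow_ne_zero _ hmK) hb'.symm
    refine ⟨b', fun c hc => ?_, {v | b' ∈ v.asIdeal}, finite_mem hb'0, fun v hv hvT => ?_⟩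
    · apply hℓ.2
      have hc0 : c ≠ 0 := by
        rintro rfl
        rw [zero_pow hℓp.ne_zero] at hc
        exact hb'0 (RingOfIntegers.coe_injective (hc.symm.trans (map_zero _).symm))
      refine ⟨algebraMap K M (c / algebraMap (𝓞 K) K m) * w,
        units_mul s (const_unit hU s (div_ne_zero hc0 hmK)) hw, ?_⟩
      rw [h, mul_pow, ← map_pow, div_pow]
      congr 2
      rw [div_eq_iff (pow_ne_zero _ hmK), ← hb']
      exact hc
    · have hv' : Valued.v (x v) < 1 := hv
      have hx1 : ∀ v, (p v).val (1 - z)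
          (algebraMap (v.adicCompletion K) (AlgebraicClosure (v.adicCompletion K)) (1 - x v)) := by
        intro v
        rw [map_sub, map_one]
        exact Plc.val_one.sub (hx v)
      obtain ⟨ζ, hζ⟩ := sys_val s p hp (1 - z) b hb0 ℓ hℓp.pos w hw.2.1 h (fun v => 1 - x v) hx1 v
      have hmv : algebraMap K (v.adicCompletion K) (algebraMap (𝓞 K) K m) ≠ 0 :=
        (_root_.map_ne_zero _).2 hmK
      obtain ⟨u, hu⟩ : ∃ u : v.adicCompletion K,
          1 - x v = algebraMap K (v.adicCompletion K) (algebraMap (𝓞 K) K b') * u ^ ℓ := by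
        refine ⟨ζ / algebraMap K (v.adicCompletion K) (algebraMap (𝓞 K) K m), ?_⟩
        rw [hb', map_mul, map_pow, div_pow, mul_assoc, mul_div_cancel₀ _ (pow_ne_zero _ hmv)]
        exact hζ
      have hone : Valued.v (1 - x v) = 1 := by
        rw [Valuation.map_sub_eq_of_lt_left, map_one]
        rw [map_one]
        exact hv'
      have hbv : Valued.v (algebraMap K (v.adicCompletion K) (algebraMap (𝓞 K) K b')) = 1 := by
        refine le_antisymm (val_int v b') (not_lt.1 fun hlt => hvT ?_)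
        exact (val_lt v b').1 hlt
      have huv : Valued.v u = 1 := by
        rw [hu, map_mul, hbv, one_mul, map_pow] at hone
        exact (pow_eq_one_iff_of_nonneg zero_le hℓp.ne_zero).1 hone
      have hu0 : u ≠ 0 := by
        rintro rfl
        rw [map_zero] at huv
        exact zero_ne_one huv
      have huv' : Valued.v u⁻¹ = 1 := by rw [map_inv₀, huv, inv_one]
      obtain ⟨t, ht⟩ := exists_near_int v u⁻¹ huv'.le (γ := 1) one_ne_zero
      refine ⟨t, ?_⟩
      rw [← val_lt, map_sub, map_sub, map_pow, map_pow]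
      have h1 := Pool.Agent.U36.SC.pow_sub_lt _ huv'.le (val_int v t) ht ℓ
      have h2 : algebraMap K (v.adicCompletion K) (algebraMap (𝓞 K) K b') -
          algebraMap K (v.adicCompletion K) (algebraMap (𝓞 K) K t) ^ ℓ =
          (u⁻¹ ^ ℓ - algebraMap K (v.adicCompletion K) (algebraMap (𝓞 K) K t) ^ ℓ) -
            x v * u⁻¹ ^ ℓ := by
        have h3 : algebraMap K (v.adicCompletion K) (algebraMap (𝓞 K) K b') =
            (1 - x v) * u⁻¹ ^ ℓ := by
          rw [hu, mul_assoc, ← mul_pow, mul_inv_cancel₀ hu0, one_pow, mul_one]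
        rw [h3]
        ring
      rw [h2]
      refine lt_of_le_of_lt (Valuation.map_sub _ _ _) (max_lt h1 ?_)
      rw [map_mul, map_pow, huv', one_pow, mul_one]
      exact hv'

include hU e he hp hpU in
/-- **Integrality outside density zero.** -/
theorem integral_dens {z : M} (hz : z ∈ units U s) (hz1 : 1 - z ∈ units U s)
    (x : ∀ v : HeightOneSpectrum (𝓞 K), v.adicCompletion K)
    (hx : ∀ v, (p v).val z
      (algebraMap (v.adicCompletion K) (AlgebraicClosure (v.adicCompletion K)) (x v))) :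
    DZ {v : HeightOneSpectrum (𝓞 K) | Valued.v (x v) ≠ 1 ∨ Valued.v (1 - x v) ≠ 1} := by
  have hx0 : ∀ v, x v ≠ 0 := by
    intro v
    obtain ⟨y, hy0, hy⟩ := val_unit s p hp hpU hz v
    have h1 := (algebraMap (v.adicCompletion K) (AlgebraicClosure (v.adicCompletion K))).injective
      ((hx v).unique hy)
    rw [h1]
    exact hy0
  have h0 := near_zero hU e he s p hp hpU hz hz1 x hx
  have h1 := near_zero hU e he s p hp hpU hz1 (by rw [sub_sub_cancel]; exact hz)
    (fun v => 1 - x v) (fun v => by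
      rw [map_sub, map_one]
      exact Plc.val_one.sub (hx v))
  have h2 := near_zero hU e he s p hp hpU (units_inv s hz) (by
      have h3 : 1 - z⁻¹ = -((1 - z) * z⁻¹) := by
        rw [sub_mul, one_mul, mul_inv_cancel₀ hz.1]
        ring
      rw [h3]
      exact units_neg s (units_mul s hz1 (units_inv s hz)))
    (fun v => (x v)⁻¹) (fun v => by
      rw [map_inv₀]
      exact (hx v).inv ((_root_.map_ne_zero _).2 (hx0 v)))
  refine DZ.mono (DZ.union (DZ.union h0 h1) h2) fun v hv => ?_
  by_contra hnot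
  rw [Set.mem_union, Set.mem_union, not_or, not_or] at hnot
  obtain ⟨⟨h3, h4⟩, h5⟩ := hnot
  rw [Set.mem_ofPred_eq, not_lt] at h3 h4 h5
  rw [map_inv₀] at h5
  have h6 : Valued.v (x v) ≤ 1 := by
    rw [← inv_le_inv₀ zero_lt_one (zero_lt_iff.2 ((Valuation.ne_zero_iff _).2 (hx0 v))), inv_one]
    exact h5
  rcases hv with hv | hv
  · exact hv (le_antisymm h6 h3)
  · refine hv (le_antisymm ?_ h4)
    refine (Valuation.map_sub _ _ _).trans (max_le ?_ h6)
    rw [map_one]

end Pool.Agent.U36.DN
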