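import Pool.Agent.U36.DN.Far
import Pool.Agent.U36.CM.Main

/-!
Points of the line minus sufficiently many closed points which are global modulo all powers are near
the removed closed points only at a set of places of density zero.
-/

set_option autoImplicit false
set_option linter.unusedSectionVars false
set_option linter.unusedVariables false

open NumberField Polynomial Pool.Agent.W401.Cheb IsDedekindDomain Filter Topology WithZero

namespace Pool.Agent.U36.DN

open Pool.Agent.U36.BA Pool.Agent.U36.CM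

variable {K : Type} [Field K] [NumberField K]

lemma finite_big (B : K[X]) (w : ∀ v : HeightOneSpectrum (𝓞 K), v.adicCompletion K) :
    {v : HeightOneSpectrum (𝓞 K) | Valued.v (w v) ≤ 1 ∧
      1 < Valued.v (B.eval₂ (algebraMap K (v.adicCompletion K)) (w v))}.Finite := by
  classical
  have h1 : (⋃ i ∈ B.support, {v : HeightOneSpectrum (𝓞 K) |
      v.valuation K (B.coeff i) ≠ 1}).Finite := by
    refine Set.Finite.biUnion B.support.finite_toSet fun i hi => ?_
    exact finite_ne_one (mem_support_iff.1 hi)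
  refine h1.subset fun v hv => ?_
  by_contra hnot
  rw [Set.mem_iUnion₂] at hnot
  push Not at hnot
  apply absurd hv.2 (not_lt.2 _)
  rw [eval₂_eq_sum]
  refine Valuation.map_sum_le _ fun i hi => ?_
  have h2 := hnot i hi
  rw [Set.mem_ofPred_eq, not_not] at h2
  rw [map_mul, map_pow, val_K, h2, one_mul]
  exact pow_le_one₀ zero_le hv.1

lemma exists_place (K : Type) [Field K] [NumberField K] : Nonempty (HeightOneSpectrum (𝓞 K)) := by
  obtain ⟨m, hm⟩ := Ideal.exists_maximal (𝓞 K)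
  refine ⟨⟨m, hm.isPrime, ?_⟩⟩
  rintro rfl
  exact RingOfIntegers.not_isField K (Ring.isField_iff_isSimpleOrder_ideal.2
    (isSimpleOrder_iff_isCoatom_bot.2 (Ideal.isMaximal_def.1 hm)))

/-- values which are roots of one polynomial -/
lemma finite_near {g : K[X]} (hg : g ≠ 0) (w : ∀ v : HeightOneSpectrum (𝓞 K), v.adicCompletion K)
    (hgw : ∀ v : HeightOneSpectrum (𝓞 K), g.eval₂ (algebraMap K (v.adicCompletion K)) (w v) ≠ 0) :
    ∀ n : ℕ, ∀ Q : K[X], Q.natDegree ≤ n → Q ≠ 0 →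
      (∀ v : HeightOneSpectrum (𝓞 K), Q.eval₂ (algebraMap K (v.adicCompletion K)) (w v) = 0) →
    {v : HeightOneSpectrum (𝓞 K) | Valued.v (w v) ≤ 1 ∧
      Valued.v (g.eval₂ (algebraMap K (v.adicCompletion K)) (w v)) < 1}.Finite := by
  classical
  intro n
  induction n with
  | zero =>
    intro Q hn hQ0 hQ
    obtain ⟨c, rfl⟩ := natDegree_eq_zero.1 (Nat.le_zero.1 hn)
    have hc : c ≠ 0 := fun h => hQ0 (by rw [h, C_0])
    obtain ⟨v⟩ := exists_place K
    have h1 := hQ v
    rw [eval₂_C] at h1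
    exact absurd ((_root_.map_eq_zero _).1 h1) hc
  | succ n ih =>
    intro Q hn hQ0 hQ
    by_cases hcop : IsCoprime Q g
    · obtain ⟨A, B, hAB⟩ := hcop
      refine (finite_big B w).subset fun v hv => ⟨hv.1, ?_⟩
      have h1 := congrArg (eval₂ (algebraMap K (v.adicCompletion K)) (w v)) hAB
      rw [eval₂_add, eval₂_mul, eval₂_mul, hQ v, mul_zero, zero_add, eval₂_one] at h1
      by_contra hle
      have h2 := congrArg Valued.v h1
      rw [map_mul, map_one] at h2
      have h3 : Valued.v (eval₂ (algebraMap K (v.adicCompletion K)) (w v) B) *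
          Valued.v (eval₂ (algebraMap K (v.adicCompletion K)) (w v) g) < 1 :=
        mul_lt_one_of_nonneg_of_lt_one_right (not_lt.1 hle) zero_le hv.2
      exact absurd h2 h3.ne
    · -- a common factor
      have h1 : ∃ d : K[X], Irreducible d ∧ d ∣ Q ∧ d ∣ g := by
        have h2 : ¬ IsUnit (EuclideanDomain.gcd Q g) := fun h => hcop (EuclideanDomain.gcd_isUnit_iff.1 h)
        have h3 : EuclideanDomain.gcd Q g ≠ 0 := by
          intro h
          exact hQ0 (EuclideanDomain.gcd_eq_zero_iff.1 h).1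
        obtain ⟨d, hd, hdd⟩ := WfDvdMonoid.exists_irreducible_factor h2 h3
        exact ⟨d, hd, hdd.trans (EuclideanDomain.gcd_dvd_left _ _),
          hdd.trans (EuclideanDomain.gcd_dvd_right _ _)⟩
      obtain ⟨d, hd, ⟨Q', rfl⟩, ⟨g', hg'⟩⟩ := h1
      have hQ'0 : Q' ≠ 0 := right_ne_zero_of_mul hQ0
      refine ih Q' ?_ hQ'0 fun v => ?_
      · have h2 : 0 < d.natDegree := hd.natDegree_pos
        rw [natDegree_mul (left_ne_zero_of_mul hQ0) hQ'0] at hn
        omega
      · have h2 := hQ v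
        rw [eval₂_mul] at h2
        refine (mul_eq_zero.1 h2).resolve_left fun h3 => hgw v ?_
        rw [hg', eval₂_mul, h3, zero_mul]

/-- a bound for the valuations -/
lemma exists_hyp (z : ∀ v : HeightOneSpectrum (𝓞 K), v.adicCompletion K) (hz : ∀ v, z v ≠ 0)
    (hfin : {v | Valued.v (z v) ≠ 1}.Finite)
    (hkum : ∀ ℓ : ℕ, 1 ≤ ℓ → ∃ b : K, b ≠ 0 ∧ ∀ v, ∃ u : v.adicCompletion K, u ≠ 0 ∧
      z v = algebraMap K (v.adicCompletion K) b * u ^ ℓ) : ∃ B : ℕ, ∀ B', B ≤ B' → Hyp z B' := by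
  classical
  set B := ∑ v ∈ hfin.toFinset, (log (Valued.v (z v))).natAbs with hB
  have hle : ∀ v, (log (Valued.v (z v))).natAbs ≤ B := by
    intro v
    by_cases hv : v ∈ hfin.toFinset
    · exact Finset.single_le_sum (f := fun v => (log (Valued.v (z v))).natAbs)
        (fun _ _ => Nat.zero_le _) hv
    · have h1 : Valued.v (z v) = 1 := by
        by_contra h
        exact hv (hfin.mem_toFinset.2 h)
      rw [h1, log_one]
      exact Nat.zero_le _
  refine ⟨B, fun B' hB' => ⟨fun v => ?_, fun v => ?_, fun n hn => ?_⟩⟩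
  · have h1 : Valued.v (z v) ≠ 0 := (Valuation.ne_zero_iff _).2 (hz v)
    rw [← exp_log h1, exp_le_exp]
    have := (hle v).trans hB'
    omega
  · have h1 : Valued.v (z v) ≠ 0 := (Valuation.ne_zero_iff _).2 (hz v)
    rw [← exp_log h1, exp_le_exp]
    have := (hle v).trans hB'
    omega
  · obtain ⟨b, hb, h⟩ := hkum n hn
    refine ⟨b, hb, fun v => ?_⟩
    obtain ⟨u, -, hu⟩ := h v
    exact ⟨u, hu⟩

/-- **Points near the removed closed points.** -/
theorem near_gen {I : Type} [Fintype I] [DecidableEq I] (P : I → (𝓞 K)[X]) (hP : ∀ i, (P i).Monic)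
    (hdeg : ∀ i, 0 < (P i).natDegree)
    (hcop : ∀ i j, i ≠ j → IsCoprime ((P i).map (algebraMap (𝓞 K) K)) ((P j).map (algebraMap (𝓞 K) K)))
    (w : ∀ v : HeightOneSpectrum (𝓞 K), v.adicCompletion K)
    (hkum : ∀ i, ∀ ℓ : ℕ, 1 ≤ ℓ → ∃ b : K, b ≠ 0 ∧ ∀ v, ∃ u : v.adicCompletion K, u ≠ 0 ∧
      ev (P i) v (w v) = algebraMap K (v.adicCompletion K) b * u ^ ℓ)
    (i0 : I) (hI : Enough K (Fintype.card {j : I // j ≠ i0})) :
    DZ {v : HeightOneSpectrum (𝓞 K) | Valued.v (w v) ≤ 1 ∧ Valued.v (ev (P i0) v (w v)) < 1} := by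
  classical
  by_contra hnd
  have hne : ∀ i v, ev (P i) v (w v) ≠ 0 := by
    intro i v
    obtain ⟨b, hb, h⟩ := hkum i 1 le_rfl
    obtain ⟨u, hu, h1⟩ := h v
    rw [h1]
    exact mul_ne_zero ((_root_.map_ne_zero _).2 hb) (pow_ne_zero _ hu)
  have hfar : ∀ j, j ≠ i0 → {v : HeightOneSpectrum (𝓞 K) | Valued.v (ev (P j) v (w v)) ≠ 1}.Finite :=
    fun j hj => far (hP i0) (hcop i0 j hj.symm) w (hkum j) _ (fun v hv => hv) hnd
  have hhyp : ∀ j : {j : I // j ≠ i0}, ∃ B : ℕ, ∀ B', B ≤ B' → Hyp (fun v => ev (P j) v (w v)) B' :=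
    fun j => exists_hyp _ (hne j) (hfar j.1 j.2) (hkum j)
  choose B hB using hhyp
  obtain ⟨Q, hQ, hQw⟩ := core_pol hI (fun j => (P j.1).map (algebraMap (𝓞 K) K))
    (fun j => (hP j.1).map _) (fun j => by
      rw [(hP j.1).natDegree_map]
      exact hdeg j.1)
    (fun j k hjk => hcop j.1 k.1 fun h => hjk (Subtype.ext h)) w (∑ j, B j) fun j =>
      hB j _ (Finset.single_le_sum (f := B) (fun _ _ => Nat.zero_le _) (Finset.mem_univ j))
  apply hnd
  apply DZ.finite
  exact finite_near ((hP i0).map _).ne_zero w (fun v => hne i0 v) _ Q le_rfl hQ.ne_zero hQw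

end Pool.Agent.U36.DN
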