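import Pool.Agent.U36.DN.Near
import Pool.Agent.U36.SC.Main

/-!
Sections of fundamental groups of curves which are given locally by points: units `z` with `1 - z` a unit.
-/

set_option autoImplicit false
set_option linter.unusedSectionVars false
set_option linter.unusedVariables false

open NumberField Polynomial Pool.Agent.W401.Cheb IsDedekindDomain Filter Topology WithZero

namespace Pool.Agent.U36.DN

open Pool.Agent.TH954 Pool.Agent.U36.BA Pool.Agent.U36.CM Pool.Agent.U36.SC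

variable {K : Type} [Field K] [NumberField K] {F M B : Type} [Field F] [Field M] [Field B]
  [Algebra K F] [Algebra F M] [Algebra K M] [Algebra K B] [IsScalarTower K F M]
  [IsAlgClosure K B] [Algebra.IsAlgebraic F M]

section

variable {U : Set (ValuationSubring F)} (hU : ∀ O ∈ U, ∀ c : K, algebraMap K F c ∈ O)
  (s : GalSection K F M B)

include hU in
lemma const_mem {W : ValuationSubring M} (hW : W.comap (algebraMap F M) ∈ U) (c : K) :
    algebraMap K M c ∈ W := by
  have h1 := hU _ hW c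
  rw [ValuationSubring.mem_comap, ← IsScalarTower.algebraMap_apply] at h1
  exact h1

include hU in
lemma const_unit {c : K} (hc : c ≠ 0) : algebraMap K M c ∈ units U s := by
  refine ⟨(_root_.map_ne_zero _).2 hc, fun g => ?_, fun W hW => ⟨const_mem hU hW c, ?_⟩⟩
  · rw [IsScalarTower.algebraMap_apply K F M]
    exact (s.s g).commutes _
  · rw [← map_inv₀]
    exact const_mem hU hW c⁻¹

lemma units_mul {a b : M} (ha : a ∈ units U s) (hb : b ∈ units U s) : a * b ∈ units U s := by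
  refine ⟨mul_ne_zero ha.1 hb.1, fun g => by rw [map_mul, ha.2.1, hb.2.1], fun W hW => ⟨?_, ?_⟩⟩
  · exact mul_mem (ha.2.2 W hW).1 (hb.2.2 W hW).1
  · rw [mul_inv]
    exact mul_mem (ha.2.2 W hW).2 (hb.2.2 W hW).2

lemma units_inv {a : M} (ha : a ∈ units U s) : a⁻¹ ∈ units U s := by
  refine ⟨inv_ne_zero ha.1, fun g => by rw [map_inv₀, ha.2.1], fun W hW => ⟨(ha.2.2 W hW).2, ?_⟩⟩
  rw [inv_inv]
  exact (ha.2.2 W hW).1

lemma units_pow {a : M} (ha : a ∈ units U s) (n : ℕ) : a ^ n ∈ units U s := by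
  refine ⟨pow_ne_zero n ha.1, fun g => by rw [map_pow, ha.2.1], fun W hW => ⟨?_, ?_⟩⟩
  · exact pow_mem (ha.2.2 W hW).1 n
  · rw [← inv_pow]
    exact pow_mem (ha.2.2 W hW).2 n

lemma units_zpow {a : M} (ha : a ∈ units U s) (n : ℤ) : a ^ n ∈ units U s := by
  obtain ⟨n, rfl | rfl⟩ := n.eq_nat_or_neg
  · rw [zpow_natCast]
    exact units_pow s ha n
  · rw [zpow_neg, zpow_natCast]
    exact units_inv s (units_pow s ha n)

lemma units_neg {a : M} (ha : a ∈ units U s) : -a ∈ units U s := by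
  refine ⟨neg_ne_zero.2 ha.1, fun g => by rw [map_neg, ha.2.1], fun W hW => ⟨?_, ?_⟩⟩
  · exact neg_mem (ha.2.2 W hW).1
  · rw [inv_neg]
    exact neg_mem (ha.2.2 W hW).2

lemma units_of_pow {a b : M} {n : ℕ} (hn : 0 < n) (hb : b ∈ units U s) (h : a ^ n = b)
    (hfix : ∀ g, s.s g a = a) : a ∈ units U s := by
  refine ⟨?_, hfix, hb.2.2.of_pow hn h⟩
  rintro rfl
  rw [zero_pow hn.ne'] at h
  exact hb.1 h.symm

end

section

variable {Ω : Type} [Field Ω] [Algebra F Ω] [Algebra K Ω] [IsScalarTower K F Ω] [IsAlgClosed Ω]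
  {U : Set (ValuationSubring F)} (hU : ∀ O ∈ U, ∀ c : K, algebraMap K F c ∈ O)
  (e : M →ₐ[F] Ω) (he : Pool.Agent.W620.SC.unramified F Ω U = e.fieldRange)
  (s : GalSection K F M B)
  (p : ∀ v : HeightOneSpectrum (𝓞 K), Plc K M (AlgebraicClosure (v.adicCompletion K)))
  (hp : ∀ v, s.GivenBy (v.adicCompletion K) (p v)) (hpU : ∀ v, PointOf U (p v))

include hp hpU in
/-- the values of units -/
lemma val_unit {z : M} (hz : z ∈ units U s) (v : HeightOneSpectrum (𝓞 K)) :
    ∃ x : v.adicCompletion K, x ≠ 0 ∧ (p v).val z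
      (algebraMap (v.adicCompletion K) (AlgebraicClosure (v.adicCompletion K)) x) := by
  have hmem : z ∈ (p v).W ∧ z⁻¹ ∈ (p v).W := by
    rcases hpU v with h | h
    · rw [h]
      exact ⟨trivial, trivial⟩
    · exact hz.2.2 _ h
  obtain ⟨c, hc⟩ := Plc.val_of_mem hmem.1
  obtain ⟨x, rfl⟩ := Pool.Agent.TH213.SEL.value_fixed (hp v) hz.2.1 hc
  refine ⟨x, ?_, hc⟩
  rintro rfl
  rw [map_zero] at hc
  obtain ⟨c, hc'⟩ := Plc.val_of_mem hmem.2
  have h2 := hc.mul hc'
  rw [mul_inv_cancel₀ hz.1, zero_mul] at h2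
  exact one_ne_zero (Plc.val_one.unique h2)

include hU e he in
/-- Kummer classes of units -/
lemma kum_unit {z : M} (hz : z ∈ units U s) (n : ℕ) (hn : 0 < n) :
    ∃ (b : K) (w : M), b ≠ 0 ∧ w ∈ units U s ∧ z = algebraMap K M b * w ^ n := by
  obtain ⟨ω, hω⟩ := root_unram U hU e he z hz.1 hz.2.2 n hn
  obtain ⟨b, w, hb, hw, h⟩ := exists_kum s z hz.1 hz.2.1 n hn ω hω
  have hbM : algebraMap K M b ≠ 0 := (_root_.map_ne_zero _).2 hb
  refine ⟨b, w, hb, units_of_pow s hn (units_mul s (units_inv s (const_unit hU s hb)) hz) ?_ hw, h⟩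
  conv_rhs => rw [h]
  rw [← mul_assoc, inv_mul_cancel₀ hbM, one_mul]

include hU e he hp hpU in
/-- local Kummer classes of units -/
lemma kum_loc {z : M} (hz : z ∈ units U s) (x : ∀ v : HeightOneSpectrum (𝓞 K), v.adicCompletion K)
    (hx : ∀ v, (p v).val z
      (algebraMap (v.adicCompletion K) (AlgebraicClosure (v.adicCompletion K)) (x v)))
    (n : ℕ) (hn : 1 ≤ n) : ∃ b : K, b ≠ 0 ∧ ∀ v, ∃ u : v.adicCompletion K, u ≠ 0 ∧
      x v = algebraMap K (v.adicCompletion K) b * u ^ n := by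
  obtain ⟨b, w, hb, hw, h⟩ := kum_unit hU e he s hz n hn
  refine ⟨b, hb, fun v => ?_⟩
  obtain ⟨u, hu⟩ := sys_val s p hp z b hb n hn w hw.2.1 h x hx v
  refine ⟨u, ?_, hu⟩
  rintro rfl
  rw [zero_pow (by omega), mul_zero] at hu
  obtain ⟨x', hx'0, hx'⟩ := val_unit s p hp hpU hz v
  have h1 := (hx v).unique hx'
  rw [hu, map_zero] at h1
  exact hx'0 ((_root_.map_eq_zero _).1 h1.symm)

end

end Pool.Agent.U36.DN
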