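import Pool.Agent.U36.DN.Sec

/-!
Sections of fundamental groups of curves which are given locally by points: the places where a unit
`z`, with `1 - z` a unit, is near zero.
-/

set_option autoImplicit false
set_option linter.unusedSectionVars false
set_option linter.unusedVariables false

open NumberField Polynomial Pool.Agent.W401.Cheb IsDedekindDomain Filter Topology WithZero

namespace Pool.Agent.U36.DN

open Pool.Agent.TH954 Pool.Agent.U36.BA Pool.Agent.U36.CM Pool.Agent.U36.SC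

variable {K : Type} [Field K] [NumberField K] {F M B : Type} [Field F] [Field M] [Field B]
  [Algebra K F] [Algebra F M] [Algebra K M] [Algebra K B] [IsScalarTower K F M]
  [IsAlgClosure K B] [Algebra.IsAlgebraic F M]

section

variable {U : Set (ValuationSubring F)} (s : GalSection K F M B)

lemma one_units (hU : ∀ O ∈ U, ∀ c : K, algebraMap K F c ∈ O) : (1 : M) ∈ units U s := by
  have h := const_unit (M := M) hU s (one_ne_zero (α := K))
  rwa [map_one] at h

lemma root_units (A : Finset ℕ) (hA : ∀ ℓ ∈ A, ℓ.Prime) {y : M} (hy : y ∈ units U s)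
    (h : ∀ ℓ ∈ A, ∃ w ∈ units U s, w ^ ℓ = y) : ∃ w ∈ units U s, w ^ (∏ ℓ ∈ A, ℓ) = y := by
  classical
  induction A using Finset.induction_on with
  | empty => exact ⟨y, hy, by simp⟩
  | insert ℓ A hℓ ih =>
    obtain ⟨w1, hw1, h1⟩ := h ℓ (Finset.mem_insert_self _ _)
    obtain ⟨w2, hw2, h2⟩ := ih (fun l hl => hA l (Finset.mem_insert_of_mem hl))
      (fun l hl => h l (Finset.mem_insert_of_mem hl))
    have hcop : Nat.Coprime ℓ (∏ l ∈ A, l) := by
      refine Nat.Coprime.prod_right fun l hl => ?_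
      refine (Nat.coprime_primes (hA ℓ (Finset.mem_insert_self _ _))
        (hA l (Finset.mem_insert_of_mem hl))).2 ?_
      rintro rfl
      exact hℓ hl
    rw [Finset.prod_insert hℓ]
    set n := ∏ l ∈ A, l with hn
    have hbez : (ℓ : ℤ) * Nat.gcdA ℓ n + (n : ℤ) * Nat.gcdB ℓ n = 1 := by
      have h3 := Nat.gcd_eq_gcd_ab ℓ n
      rw [Nat.Coprime.gcd_eq_one hcop] at h3
      exact_mod_cast h3.symm
    refine ⟨w1 ^ Nat.gcdB ℓ n * w2 ^ Nat.gcdA ℓ n,
      units_mul s (units_zpow s hw1 _) (units_zpow s hw2 _), ?_⟩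
    rw [mul_pow, ← zpow_natCast, ← zpow_natCast, ← zpow_mul, ← zpow_mul]
    have e1 : Nat.gcdB ℓ n * ((ℓ * n : ℕ) : ℤ) = (ℓ : ℤ) * (n * Nat.gcdB ℓ n) := by
      push_cast
      ring
    have e2 : Nat.gcdA ℓ n * ((ℓ * n : ℕ) : ℤ) = (n : ℤ) * (ℓ * Nat.gcdA ℓ n) := by
      push_cast
      ring
    have e3 : w1 ^ ((ℓ : ℤ) * (n * Nat.gcdB ℓ n)) = y ^ ((n : ℤ) * Nat.gcdB ℓ n) := by
      rw [zpow_mul, zpow_natCast, h1]
    have e4 : w2 ^ ((n : ℤ) * (ℓ * Nat.gcdA ℓ n)) = y ^ ((ℓ : ℤ) * Nat.gcdA ℓ n) := by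
      rw [zpow_mul, zpow_natCast, h2]
    rw [e1, e2, e3, e4, ← zpow_add₀ hy.1, add_comm, hbez, zpow_one]

lemma fix_aeval {w : M} (hw : w ∈ units U s) (P : K[X]) (g) : s.s g (aeval w P) = aeval w P := by
  have h1 := Polynomial.aeval_algHom_apply (((s.s g : M ≃ₐ[F] M) : M →ₐ[F] M).restrictScalars K) w P
  have h2 : (((s.s g : M ≃ₐ[F] M) : M →ₐ[F] M).restrictScalars K) w = w := hw.2.1 g
  rw [h2] at h1
  exact h1.symm

lemma mem_aeval (hU : ∀ O ∈ U, ∀ c : K, algebraMap K F c ∈ O) {w : M} (hw : w ∈ units U s)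
    (P : K[X]) {W : ValuationSubring M} (hW : W.comap (algebraMap F M) ∈ U) : aeval w P ∈ W := by
  rw [Polynomial.aeval_eq_sum_range]
  refine sum_mem (fun i _ => ?_)
  rw [Algebra.smul_def]
  exact mul_mem (const_mem hU hW _) (pow_mem (hw.2.2 W hW).1 i)

lemma prod_cyc (w : M) {n : ℕ} (hn : 0 < n) :
    ∏ i ∈ n.divisors, aeval w (cyclotomic i K) = w ^ n - 1 := by
  rw [← map_prod, prod_cyclotomic_eq_X_pow_sub_one hn, map_sub, map_pow, aeval_X, map_one]

lemma cyc_unit (hU : ∀ O ∈ U, ∀ c : K, algebraMap K F c ∈ O) {w z : M} (hw : w ∈ units U s)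
    (hz : z ∈ units U s) {n : ℕ} (hn : 0 < n) (h : w ^ n - 1 = -z) {m : ℕ} (hm : m ∈ n.divisors) :
    aeval w (cyclotomic m K) ∈ units U s := by
  classical
  have h1 := prod_cyc (K := K) w hn
  rw [h, ← Finset.mul_prod_erase _ _ hm] at h1
  set a := aeval w (cyclotomic m K) with ha
  set b := ∏ i ∈ n.divisors.erase m, aeval w (cyclotomic i K) with hb
  have hz0 : -z ≠ 0 := neg_ne_zero.2 hz.1
  have ha0 : a ≠ 0 := by
    intro h0
    rw [h0, zero_mul] at h1
    exact hz0 h1.symm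
  refine ⟨ha0, fix_aeval s hw _, fun W hW => ⟨mem_aeval s hU hw _ hW, ?_⟩⟩
  have h2 : a⁻¹ = b * (-z)⁻¹ := by
    rw [← h1, mul_inv, mul_comm a⁻¹ b⁻¹, ← mul_assoc]
    have hb0 : b ≠ 0 := by
      intro h0
      rw [h0, mul_zero] at h1
      exact hz0 h1.symm
    rw [mul_inv_cancel₀ hb0, one_mul]
  rw [h2]
  exact mul_mem (prod_mem fun i _ => mem_aeval s hU hw _ hW) ((units_neg s hz).2.2 W hW).2

end

section

lemma ev_cyc (m : ℕ) (v : HeightOneSpectrum (𝓞 K)) (x : v.adicCompletion K) :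
    ev (cyclotomic m (𝓞 K)) v x = aeval x (cyclotomic m K) := by
  unfold ev
  rw [map_cyclotomic]
  rfl

lemma prod_ev {n : ℕ} (hn : 0 < n) (v : HeightOneSpectrum (𝓞 K)) (x : v.adicCompletion K) :
    ∏ i ∈ n.divisors, ev (cyclotomic i (𝓞 K)) v x = x ^ n - 1 := by
  simp only [ev_cyc]
  rw [← map_prod, prod_cyclotomic_eq_X_pow_sub_one hn, map_sub, map_pow, aeval_X, map_one]

lemma cop_cyc {m n : ℕ} (h : m ≠ n) :
    IsCoprime ((cyclotomic m (𝓞 K)).map (algebraMap (𝓞 K) K))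
      ((cyclotomic n (𝓞 K)).map (algebraMap (𝓞 K) K)) := by
  rw [map_cyclotomic, map_cyclotomic, ← map_cyclotomic m (algebraMap ℚ K),
    ← map_cyclotomic n (algebraMap ℚ K)]
  exact (cyclotomic.isCoprime_rat h).map (mapRingHom (algebraMap ℚ K))

end

section

variable {Ω : Type} [Field Ω] [Algebra F Ω] [Algebra K Ω] [IsScalarTower K F Ω] [IsAlgClosed Ω]
  {U : Set (ValuationSubring F)} (hU : ∀ O ∈ U, ∀ c : K, algebraMap K F c ∈ O)
  (e : M →ₐ[F] Ω) (he : Pool.Agent.W620.SC.unramified F Ω U = e.fieldRange)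
  (s : GalSection K F M B)
  (p : ∀ v : HeightOneSpectrum (𝓞 K), Plc K M (AlgebraicClosure (v.adicCompletion K)))
  (hp : ∀ v, s.GivenBy (v.adicCompletion K) (p v)) (hpU : ∀ v, PointOf U (p v))

include hU e he hp hpU in
/-- If `1 - z` has roots of sufficiently many prime orders: -/
lemma near_root {z w : M} (hz : z ∈ units U s) (hw : w ∈ units U s) {n : ℕ} (hn : 0 < n)
    (h : w ^ n = 1 - z) (hcard : Module.finrank ℚ K + 1 ≤ n.divisors.card)
    (x : ∀ v : HeightOneSpectrum (𝓞 K), v.adicCompletion K)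
    (hx : ∀ v, (p v).val z
      (algebraMap (v.adicCompletion K) (AlgebraicClosure (v.adicCompletion K)) (x v))) :
    DZ {v : HeightOneSpectrum (𝓞 K) | Valued.v (x v) < 1} := by
  classical
  have h' : w ^ n - 1 = -z := by rw [h]; ring
  choose wv hwv0 hwv using fun v => val_unit s p hp hpU hw v
  have hval : ∀ v, wv v ^ n = 1 - x v := by
    intro v
    apply (algebraMap (v.adicCompletion K) (AlgebraicClosure (v.adicCompletion K))).injective
    have h1 := (hwv v).pow n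
    rw [h] at h1
    have h2 := Plc.val_one.sub (hx v)
    rw [map_pow, map_sub, map_one]
    exact h1.unique h2
  have hkum : ∀ i : n.divisors, ∀ ℓ : ℕ, 1 ≤ ℓ → ∃ b : K, b ≠ 0 ∧ ∀ v, ∃ u : v.adicCompletion K,
      u ≠ 0 ∧ ev (cyclotomic i.1 (𝓞 K)) v (wv v) = algebraMap K (v.adicCompletion K) b * u ^ ℓ := by
    intro i ℓ hℓ
    refine kum_loc hU e he s p hp hpU (cyc_unit s hU hw hz hn h' i.2)
      (fun v => ev (cyclotomic i.1 (𝓞 K)) v (wv v)) (fun v => ?_) ℓ hℓ
    have h1 := Plc.val_aeval (hwv v) (cyclotomic i.1 K)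
    rw [ev_cyc, ← aeval_algebraMap_apply]
    exact h1
  have hdz : ∀ i : n.divisors, DZ {v : HeightOneSpectrum (𝓞 K) | Valued.v (wv v) ≤ 1 ∧
      Valued.v (ev (cyclotomic i.1 (𝓞 K)) v (wv v)) < 1} := by
    intro i
    refine near_gen (I := n.divisors) (fun i => cyclotomic i.1 (𝓞 K)) (fun i => cyclotomic.monic _ _)
      (fun i => ?_) (fun i j hij => cop_cyc fun h => hij (Subtype.ext h)) wv hkum i (Or.inl ?_)
    · rw [natDegree_cyclotomic]
      exact Nat.totient_pos.2 (Nat.pos_of_mem_divisors i.2)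
    · rw [Fintype.card_subtype_compl, Fintype.card_subtype_eq, Fintype.card_coe]
      omega
  refine DZ.mono (DZ.biUnion (Finset.univ : Finset n.divisors) _ fun i _ => hdz i) fun v hv => ?_
  have hv' : Valued.v (x v) < 1 := hv
  have h1 : Valued.v (wv v) = 1 := by
    have h2 : Valued.v (wv v ^ n) = 1 := by
      rw [hval v, Valuation.map_sub_eq_of_lt_left, map_one]
      rw [map_one]
      exact hv'
    rw [map_pow] at h2
    exact (pow_eq_one_iff_of_nonneg zero_le hn.ne').1 h2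
  have h3 : ∏ i ∈ n.divisors, Valued.v (ev (cyclotomic i (𝓞 K)) v (wv v)) < 1 := by
    rw [← map_prod, prod_ev hn, hval v, sub_sub_cancel_left, Valuation.map_neg]
    exact hv'
  obtain ⟨i, hi, hlt⟩ : ∃ i ∈ n.divisors, Valued.v (ev (cyclotomic i (𝓞 K)) v (wv v)) < 1 := by
    by_contra hnot
    push Not at hnot
    exact absurd h3 (not_lt.2 (Finset.one_le_prod' hnot))
  rw [Set.mem_iUnion₂]
  exact ⟨⟨i, hi⟩, Finset.mem_univ _, h1.le, hlt⟩

end

end Pool.Agent.U36.DN
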